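import Pool.Agent.Y163.SL.Dbl
import Pool.Agent.TH130.CI.Bc
import Pool.Agent.TH130.CI.Cz

/-!
# The double of a complete intersection is a complete intersection
-/

set_option autoImplicit false

open MvPolynomial Module
open H503R3.QCI (Homog Reg NZD)

namespace Pool.Agent.Y163.SL



section

variable {K : Type} [Field K] {n : ℕ}

lemma CI.common_zero {f : Fin n → MvPolynomial (Fin n) K} {e : Fin n → ℕ} (h : CI f e)
    (x : Fin n → K) (hx : ∀ i, eval x (f i) = 0) : x = 0 := by
  have h1 : Id f ≤ RingHom.ker (eval x) := by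
    rw [Ideal.span_le]
    rintro _ ⟨i, rfl⟩
    exact hx i
  funext i
  have h2 : (X i : MvPolynomial (Fin n) K) ^ (sg e + 1) ∈ Id f := by
    have := (isHomogeneous_X K i).pow (sg e + 1)
    rw [one_mul] at this
    exact h.top (sg e + 1) (by omega) _ this
  have h3 : eval x ((X i : MvPolynomial (Fin n) K) ^ (sg e + 1)) = 0 := h1 h2
  rw [map_pow, eval_X] at h3
  exact pow_eq_zero_iff (by omega) |>.1 h3

lemma dbl_common_zero {f : Fin n → MvPolynomial (Fin n) K}
    (h : ∀ x : Fin n → K, (∀ i, eval x (f i) = 0) → x = 0)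
    (x : Fin (n + n) → K) (hx : ∀ i, eval x (dbl f i) = 0) : x = 0 := by
  have h1 : x ∘ Fin.castAdd n = 0 := by
    apply h
    intro j
    have := hx (Fin.castAdd n j)
    rwa [dbl, Fin.append_left, eval_rename] at this
  have h2 : x ∘ Fin.natAdd n = 0 := by
    apply h
    intro j
    have := hx (Fin.natAdd n j)
    rwa [dbl, Fin.append_right, eval_rename] at this
  funext i
  induction i using Fin.addCases with
  | left j => exact congrFun h1 j
  | right j => exact congrFun h2 j

lemma dbl_hom {f : Fin n → MvPolynomial (Fin n) K} {e : Fin n → ℕ}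
    (h : ∀ i, (f i).IsHomogeneous (e i)) (i : Fin (n + n)) : (dbl f i).IsHomogeneous (de e i) := by
  induction i using Fin.addCases with
  | left j =>
    rw [dbl, de, Fin.append_left, Fin.append_left]
    exact (h j).rename_isHomogeneous
  | right j =>
    rw [dbl, de, Fin.append_right, Fin.append_right]
    exact (h j).rename_isHomogeneous

lemma de_pos {e : Fin n → ℕ} (h : ∀ i, 1 ≤ e i) (i : Fin (n + n)) : 1 ≤ de e i := by
  induction i using Fin.addCases with
  | left j =>
    rw [de, Fin.append_left]
    exact h j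
  | right j =>
    rw [de, Fin.append_right]
    exact h j

lemma dbl_map {L : Type} [Field L] [Algebra K L] (f : Fin n → MvPolynomial (Fin n) K)
    (i : Fin (n + n)) :
    map (algebraMap K L) (dbl f i) = dbl (fun j => map (algebraMap K L) (f j)) i := by
  induction i using Fin.addCases with
  | left j => rw [dbl, dbl, Fin.append_left, Fin.append_left, map_rename]
  | right j => rw [dbl, dbl, Fin.append_right, Fin.append_right, map_rename]

/-- The double of a complete intersection is a complete intersection. -/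
theorem CI.dbl {f : Fin n → MvPolynomial (Fin n) K} {e : Fin n → ℕ} (h : CI f e) :
    CI (dbl f) (de e) := by
  refine ⟨dbl_hom h.hf, de_pos h.he, ?_⟩
  let L := AlgebraicClosure K
  have hL : CI (fun i => map (algebraMap K L) (f i)) e :=
    ⟨fun i => (h.hf i).map _, h.he, TH130CI.reg_map h.hreg⟩
  have hR : Reg (Pool.Agent.Y163.SL.dbl (fun i => map (algebraMap K L) (f i))) :=
    TH130CI.reg_of_common_zero _ (de e) (de_pos h.he) (dbl_hom hL.hf)
      (dbl_common_zero (fun x hx => hL.common_zero x hx))
  intro i g hg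
  have h1 := hR i
  have himg : Pool.Agent.Y163.SL.dbl (fun i => map (algebraMap K L) (f i)) '' {j | j < i} =
      (fun p => map (algebraMap K L) p) '' (Pool.Agent.Y163.SL.dbl f '' {j | j < i}) := by
    rw [← Set.image_comp]
    refine Set.image_congr fun j _ => ?_
    exact (dbl_map f j).symm
  have hspan : Ideal.span (Pool.Agent.Y163.SL.dbl (fun i => map (algebraMap K L) (f i)) ''
      {j | j < i}) = (Ideal.span (Pool.Agent.Y163.SL.dbl f '' {j | j < i})).map
        (map (algebraMap K L)) := by
    rw [Ideal.map_span, himg]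
  rw [hspan] at h1
  have h2 : map (algebraMap K L) g ∈ (Ideal.span (Pool.Agent.Y163.SL.dbl f '' {j | j < i})).map
      (map (algebraMap K L)) := by
    apply h1
    rw [← dbl_map, ← map_mul]
    exact Ideal.mem_map_of_mem _ hg
  exact TH130CI.mem_map_iff'.1 h2

end

section span

variable {K : Type} [Field K] {n : ℕ}

/-- Spanning families of the double. -/
lemma span_dbl {A : Type} [CommRing A] [Algebra K A] [Module.Finite K A]
    (π : MvPolynomial (Fin n) K →ₐ[K] A) (hπ : Function.Surjective π)
    (J : Ideal (MvPolynomial (Fin (n + n)) K)) (hfin : Module.Finite K (MvPolynomial (Fin (n + n)) K ⧸ J))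
    (hJ : ∀ g ∈ J, ph π g = 0)
    (hdim : finrank K (MvPolynomial (Fin (n + n)) K ⧸ J) = finrank K A ^ 2)
    {ι : Type} (m : ι → MvPolynomial (Fin n) K)
    (hm : Submodule.span K (Set.range fun a => π (m a)) = ⊤) :
    Submodule.span K (Set.range fun p : ι × ι => Ideal.Quotient.mk J
      (rename (Fin.castAdd n) (m p.1) * rename (Fin.natAdd n) (m p.2))) = ⊤ := by
  let Φ : (MvPolynomial (Fin (n + n)) K ⧸ J) →ₐ[K] TensorProduct K A A :=
    Ideal.Quotient.liftₐ J (ph π) hJ
  have hΦ : ∀ g, Φ (Ideal.Quotient.mk J g) = ph π g := fun g => rfl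
  have hmul : ∀ g g', Φ (Ideal.Quotient.mk J (rename (Fin.castAdd n) g * rename (Fin.natAdd n) g')) =
      TensorProduct.tmul K (π g) (π g') := by
    intro g g'
    rw [hΦ, map_mul, ph_left, ph_right, Algebra.TensorProduct.tmul_mul_tmul, mul_one, one_mul]
  have hsurj : Function.Surjective Φ.toLinearMap := by
    intro z
    induction z using TensorProduct.induction_on with
    | zero => exact ⟨0, map_zero _⟩
    | tmul a b =>
      obtain ⟨g, rfl⟩ := hπ a
      obtain ⟨g', rfl⟩ := hπ b
      refine ⟨Ideal.Quotient.mk J (rename (Fin.castAdd n) g * rename (Fin.natAdd n) g'), ?_⟩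
      rw [AlgHom.toLinearMap_apply]
      exact hmul g g'
    | add x y hx hy =>
      obtain ⟨a, ha⟩ := hx
      obtain ⟨b, hb⟩ := hy
      exact ⟨a + b, by rw [map_add, ha, hb]⟩
  have hd : finrank K (MvPolynomial (Fin (n + n)) K ⧸ J) = finrank K (TensorProduct K A A) := by
    rw [hdim, Module.finrank_tensorProduct, pow_two]
  have hinj := (LinearMap.injective_iff_surjective_of_finrank_eq_finrank hd).2 hsurj
  set M := Submodule.span K (Set.range fun p : ι × ι => Ideal.Quotient.mk J
      (rename (Fin.castAdd n) (m p.1) * rename (Fin.natAdd n) (m p.2))) with hM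
  have h1 : ∀ x y : A, TensorProduct.tmul K x y ∈ M.map Φ.toLinearMap := by
    intro x y
    have hx : x ∈ Submodule.span K (Set.range fun a => π (m a)) := by rw [hm]; trivial
    have hy : y ∈ Submodule.span K (Set.range fun a => π (m a)) := by rw [hm]; trivial
    induction hx using Submodule.span_induction with
    | mem x hx =>
      obtain ⟨a, rfl⟩ := hx
      induction hy using Submodule.span_induction with
      | mem y hy =>
        obtain ⟨b, rfl⟩ := hy
        exact ⟨_, Submodule.subset_span ⟨(a, b), rfl⟩, hmul _ _⟩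
      | zero =>
        rw [TensorProduct.tmul_zero]
        exact Submodule.zero_mem _
      | add y y' _ _ h h' =>
        rw [TensorProduct.tmul_add]
        exact Submodule.add_mem _ h h'
      | smul c y _ h =>
        rw [TensorProduct.tmul_smul]
        exact Submodule.smul_mem _ _ h
    | zero =>
      rw [TensorProduct.zero_tmul]
      exact Submodule.zero_mem _
    | add y y' _ _ h h' =>
      rw [TensorProduct.add_tmul]
      exact Submodule.add_mem _ h h'
    | smul c y _ h =>
      rw [← TensorProduct.smul_tmul']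
      exact Submodule.smul_mem _ _ h
  rw [eq_top_iff]
  intro z _
  have h2 : Φ.toLinearMap z ∈ M.map Φ.toLinearMap := by
    generalize Φ.toLinearMap z = w
    induction w using TensorProduct.induction_on with
    | zero => exact Submodule.zero_mem _
    | tmul x y => exact h1 x y
    | add x y hx hy => exact Submodule.add_mem _ hx hy
  obtain ⟨z', hz', hzz⟩ := h2
  rwa [hinj hzz] at hz'

/-- The monomial basis condition. -/
def MB (f : Fin n → MvPolynomial (Fin n) K) (d : ℕ) : Prop :=
  LinearIndependent K (fun a : Fin n → Fin d =>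
      Ideal.Quotient.mk (Ideal.span (Set.range f)) (∏ j, X j ^ (a j : ℕ))) ∧
    Submodule.span K (Set.range (fun a : Fin n → Fin d =>
      Ideal.Quotient.mk (Ideal.span (Set.range f)) (∏ j, X j ^ (a j : ℕ)))) = ⊤

lemma dbl_le_ker {f : Fin n → MvPolynomial (Fin n) K} :
    ∀ g ∈ Id (dbl f), ph (Ideal.Quotient.mkₐ K (Id f)) g = 0 := by
  intro g hg
  have h3 : Id (dbl f) ≤ RingHom.ker (ph (Ideal.Quotient.mkₐ K (Id f))) := by
    rw [Ideal.span_le]
    rintro _ ⟨i, rfl⟩
    show ph (Ideal.Quotient.mkₐ K (Id f)) (dbl f i) = 0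
    induction i using Fin.addCases with
    | left j =>
      rw [dbl, Fin.append_left, ph_left]
      have : Ideal.Quotient.mkₐ K (Id f) (f j) = 0 :=
        Ideal.Quotient.eq_zero_iff_mem.2 (Ideal.subset_span ⟨j, rfl⟩)
      rw [this, TensorProduct.zero_tmul]
    | right j =>
      rw [dbl, Fin.append_right, ph_right]
      have : Ideal.Quotient.mkₐ K (Id f) (f j) = 0 :=
        Ideal.Quotient.eq_zero_iff_mem.2 (Ideal.subset_span ⟨j, rfl⟩)
      rw [this, TensorProduct.tmul_zero]
  exact h3 hg

/-- The monomial basis condition for the double. -/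
lemma MB.dbl {f : Fin n → MvPolynomial (Fin n) K} {d : ℕ} (h : CI f (fun _ => d)) (hb : MB f d) :
    MB (dbl f) d := by
  have hf1 := h.finite
  have hf2 := h.dbl.finite
  have hdim : finrank K (MvPolynomial (Fin (n + n)) K ⧸ Id (Pool.Agent.Y163.SL.dbl f)) =
      finrank K (MvPolynomial (Fin n) K ⧸ Id f) ^ 2 := by
    rw [h.dbl.finrank_eq, h.finrank_eq, card_de]
  have h1 := span_dbl (Ideal.Quotient.mkₐ K (Id f)) Ideal.Quotient.mk_surjective
    (Id (Pool.Agent.Y163.SL.dbl f)) hf2 dbl_le_ker hdim
    (fun a : Fin n → Fin d => ∏ j, X j ^ (a j : ℕ)) hb.2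
  have h2 : Submodule.span K (Set.range (fun a : Fin (n + n) → Fin d =>
      Ideal.Quotient.mk (Ideal.span (Set.range (Pool.Agent.Y163.SL.dbl f)))
        (∏ j, X j ^ (a j : ℕ)))) = ⊤ := by
    rw [eq_top_iff, ← h1]
    apply Submodule.span_mono
    rintro _ ⟨⟨a, b⟩, rfl⟩
    refine ⟨Fin.append a b, ?_⟩
    simp only
    congr 1
    rw [Fin.prod_univ_add, map_prod, map_prod]
    simp only [Fin.append_left, Fin.append_right, map_pow, rename_X]
  refine ⟨?_, h2⟩
  apply linearIndependent_of_top_le_span_of_card_eq_finrank h2.ge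
  rw [h.dbl.finrank_eq, card_de, Nat.card_eq_fintype_card, Fintype.card_pi, Fintype.card_pi]
  simp only [Fintype.card_fin, Finset.prod_const, Finset.card_univ]
  ring

end span

/-- **The strong Lefschetz property and the weak Lefschetz property of the double.** -/
theorem slp_wlp' {K : Type} [Field K] [CharZero K] {n : ℕ} {f : Fin n → MvPolynomial (Fin n) K}
    {e : Fin n → ℕ} (h : CI f e) :
    (∃ l : MvPolynomial (Fin n) K, l.IsHomogeneous 1 ∧ SLE (Id f) l) ↔
      ∃ L : MvPolynomial (Fin (n + n)) K, L.IsHomogeneous 1 ∧ WLE (Id (dbl f)) L :=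
  slp_wlp h h.dbl

end Pool.Agent.Y163.SL
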