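import Pool.Agent.Y163.SL.Two

/-!
# The weak Lefschetz property of the double of a complete intersection
-/

set_option autoImplicit false

open MvPolynomial Module TensorProduct
open H503R3.QCI (Homog Reg)
open TH130CI (AA mem_AA)

namespace Pool.Agent.Y163.SL

open Pool.Agent.Y163.MW

universe u

section strings4

variable {K : Type u} [Field K] {V : Type u} [AddCommGroup V] [Module K V]
  {gr : ℤ → Submodule K V} {N : Module.End K V}

/-- Equality in the comparison of the basis vectors. -/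
lemma card_eq_iff (S : Strings gr N) :
    Nat.card {p : S.P // S.wt p = 0 ∨ S.wt p = 1} = Nat.card {p : S.P // S.ct p = 0 ∨ S.ct p = 1} ↔
      ∀ s, ∃ i : Fin (S.len s + 1), S.wt ⟨s, i⟩ = 0 ∨ S.wt ⟨s, i⟩ = 1 := by
  classical
  let f : {p : S.P // S.wt p = 0 ∨ S.wt p = 1} → {p : S.P // S.ct p = 0 ∨ S.ct p = 1} :=
    fun p => ⟨⟨p.1.1, ⟨S.len p.1.1 / 2, by omega⟩⟩, by
      unfold Strings.ct
      simp only
      omega⟩
  have hf : Function.Injective f := by
    rintro ⟨⟨s, i⟩, hp⟩ ⟨⟨s', i'⟩, hp'⟩ h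
    have h1 : s = s' := congrArg (fun p => p.1.1) h
    subst h1
    have h2 : i = i' := by
      apply Fin.ext
      unfold Strings.wt at hp hp'
      simp only at hp hp'
      omega
    subst h2
    rfl
  constructor
  · intro h s
    have hb : Function.Bijective f := hf.bijective_of_nat_card_le h.ge
    obtain ⟨⟨⟨s', i'⟩, hp⟩, hq⟩ := hb.2 ⟨⟨s, ⟨S.len s / 2, by omega⟩⟩, by
      unfold Strings.ct
      simp only
      omega⟩
    have h1 : s' = s := congrArg (fun p => p.1.1) hq
    subst h1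
    exact ⟨i', hp⟩
  · intro h
    refine Nat.card_congr (Equiv.ofBijective f ⟨hf, ?_⟩)
    rintro ⟨⟨s, i⟩, hp⟩
    obtain ⟨i', hi'⟩ := h s
    refine ⟨⟨⟨s, i'⟩, hi'⟩, ?_⟩
    apply Subtype.ext
    simp only [f]
    unfold Strings.ct at hp
    simp only at hp
    have h3 : (⟨S.len s / 2, by omega⟩ : Fin (S.len s + 1)) = i := by
      apply Fin.ext
      simp only
      omega
    rw [h3]

/-- `N` is injective on the part of degree `c` if no string ends there. -/
lemma inj_of_last (hgr : iSupIndep gr) (S : Strings gr N) (c : ℤ)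
    (h : ∀ s (i : Fin (S.len s + 1)), S.top s - 2 * ((i : ℕ) : ℤ) = c → (i : ℕ) < S.len s) :
    ∀ x ∈ gr c, N x = 0 → x = 0 := by
  classical
  intro x hx h0
  let T : Set S.P := {p | S.wt p = c}
  have hT : ∀ p : T, (p.1.2 : ℕ) + 1 < S.len p.1.1 + 1 := by
    rintro ⟨⟨s, i⟩, hp⟩
    have := h s i hp
    simp only
    omega
  let g : T → S.P := fun p => ⟨p.1.1, ⟨(p.1.2 : ℕ) + 1, hT p⟩⟩
  have hg : Function.Injective g := by
    rintro ⟨⟨s, i⟩, hp⟩ ⟨⟨s', i'⟩, hp'⟩ hgg
    have h1 : s = s' := congrArg (fun p => p.1) hgg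
    subst h1
    have h2 : (i : ℕ) + 1 = i' + 1 := congrArg (fun p => (p.2 : ℕ)) hgg
    have h3 : i = i' := Fin.ext (by omega)
    subst h3
    rfl
  have hli : LinearIndependent K (fun p : T => N (S.b p.1)) := by
    have h1 : (fun p : T => N (S.b p.1)) = S.b ∘ g := by
      funext p
      obtain ⟨⟨s, i⟩, hp⟩ := p
      have := str_pow S s i 1 (hT ⟨⟨s, i⟩, hp⟩)
      rwa [pow_one] at this
    rw [h1]
    exact S.b.linearIndependent.comp _ hg
  have hx' : x ∈ Submodule.span K (Set.range (fun p : T => S.b p.1)) := by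
    rw [gr_eq_span hgr S.b S.wt S.mem' c] at hx
    have h1 : S.b '' {p | S.wt p = c} = Set.range (fun p : T => S.b p.1) := by
      ext y
      constructor
      · rintro ⟨p, hp, rfl⟩
        exact ⟨⟨p, hp⟩, rfl⟩
      · rintro ⟨p, rfl⟩
        exact ⟨p.1, p.2, rfl⟩
    rw [h1] at hx
    exact hx
  rw [← Finsupp.range_linearCombination] at hx'
  obtain ⟨a, rfl⟩ := hx'
  rw [← LinearMap.comp_apply, ← Finsupp.linearCombination_linear_comp] at h0
  have hc : a = 0 := linearIndependent_iff.1 hli a h0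
  rw [hc, map_zero]

/-- `N` maps the part of degree `c` onto the one of degree `c - 2` if no string begins there. -/
lemma surj_of_first (hgr : iSupIndep gr) (S : Strings gr N) (c : ℤ)
    (h : ∀ s (i : Fin (S.len s + 1)), S.top s - 2 * ((i : ℕ) : ℤ) = c - 2 → 0 < (i : ℕ)) :
    ∀ y ∈ gr (c - 2), ∃ x ∈ gr c, N x = y := by
  intro y hy
  rw [gr_eq_span hgr S.b S.wt S.mem' (c - 2)] at hy
  have h1 : Submodule.span K (S.b '' {p | S.wt p = c - 2}) ≤ (gr c).map N := by
    rw [Submodule.span_le]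
    rintro _ ⟨⟨s, i⟩, hp, rfl⟩
    have hp' : S.top s - 2 * ((i : ℕ) : ℤ) = c - 2 := hp
    have h2 := h s i hp'
    have hi := i.2
    refine ⟨S.b ⟨s, ⟨(i : ℕ) - 1, by omega⟩⟩, ?_, ?_⟩
    · have h3 := S.mem s ⟨(i : ℕ) - 1, by omega⟩
      rwa [show S.top s - 2 * ((((⟨(i : ℕ) - 1, by omega⟩ : Fin (S.len s + 1)) : ℕ)) : ℤ) = c by
        simp only; omega] at h3
    · have h4 := str_pow S s ((i : ℕ) - 1) 1 (by omega)
      rw [pow_one] at h4
      rw [h4]
      congr 2
      apply Fin.ext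
      simp only
      omega
  obtain ⟨x, hx, hxy⟩ := h1 hy
  exact ⟨x, hx, hxy⟩

/-- The first vector of a string is not in the image of `N`. -/
lemma first_not_mem (S : Strings gr N) (s : S.ι) (x : V) : N x ≠ S.b ⟨s, 0⟩ := by
  classical
  intro h
  have h1 : S.b.coord ⟨s, 0⟩ ∘ₗ N = 0 := by
    apply S.b.ext
    rintro ⟨s', i⟩
    rw [LinearMap.comp_apply, LinearMap.zero_apply]
    induction i using Fin.lastCases with
    | last => rw [S.last, map_zero]
    | cast j =>
      rw [S.succ, Basis.coord_apply, Basis.repr_self, Finsupp.single_apply, if_neg]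
      intro h2
      have h3 : s' = s := congrArg Sigma.fst h2
      subst h3
      simp at h2
  have h2 := LinearMap.congr_fun h1 x
  rw [LinearMap.comp_apply, h, Basis.coord_apply, Basis.repr_self, Finsupp.single_eq_same,
    LinearMap.zero_apply] at h2
  exact one_ne_zero h2

end strings4

section wlp

variable {K : Type u} [Field K] {n : ℕ} {f : Fin n → MvPolynomial (Fin n) K} {e : Fin n → ℕ}
  {l : MvPolynomial (Fin n) K}

/-- The linear form `l` is a weak Lefschetz element. -/
def WLE (I : Ideal (MvPolynomial (Fin n) K)) (l : MvPolynomial (Fin n) K) : Prop :=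
  ∀ i : ℕ, (∀ g ∈ homogeneousSubmodule (Fin n) K i, l * g ∈ I → g ∈ I) ∨
    ∀ h ∈ homogeneousSubmodule (Fin n) K (i + 1), ∃ g ∈ homogeneousSubmodule (Fin n) K i,
      h - l * g ∈ I

lemma wle_iff (I : Ideal (MvPolynomial (Fin n) K)) (l : MvPolynomial (Fin n) K) :
    WLE I l ↔ ∀ i : ℕ, (∀ x ∈ AA I i, ml I l x = 0 → x = 0) ∨
      ∀ y ∈ AA I (i + 1), ∃ x ∈ AA I i, ml I l x = y := by
  unfold WLE
  refine forall_congr' fun i => or_congr ?_ ?_
  · have := inj_iff (I := I) (l := l) i 1
    simpa only [pow_one] using this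
  · have := surj_iff (I := I) (l := l) i 1
    simpa only [pow_one] using this

lemma surj_succ (I : Ideal (MvPolynomial (Fin n) K)) (l : MvPolynomial (Fin n) K) (i : ℕ)
    (h : ∀ y ∈ AA I (i + 1), ∃ x ∈ AA I i, ml I l x = y) :
    ∀ y ∈ AA I (i + 1 + 1), ∃ x ∈ AA I (i + 1), ml I l x = y := by
  intro y hy
  obtain ⟨g, hg, rfl⟩ := mem_AA.1 hy
  have h1 : g ∈ homogeneousSubmodule (Fin n) K 1 * homogeneousSubmodule (Fin n) K (i + 1) := by
    have h2 : g ∈ homogeneousSubmodule (Fin n) K (i + 1 + 1) := hg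
    rw [← homogeneousSubmodule_one_pow, pow_succ', homogeneousSubmodule_one_pow] at h2
    exact h2
  have h3 : ∀ g ∈ homogeneousSubmodule (Fin n) K 1 * homogeneousSubmodule (Fin n) K (i + 1),
      Ideal.Quotient.mk I g ∈ (AA I (i + 1)).map (ml I l) := by
    intro g hg
    induction hg using Submodule.mul_induction_on' with
    | mem_mul_mem a ha b hb =>
      obtain ⟨x, hx, hxb⟩ := h _ (mem_AA.2 ⟨b, hb, rfl⟩)
      obtain ⟨g', hg', rfl⟩ := mem_AA.1 hx
      refine ⟨Ideal.Quotient.mk I (a * g'), mem_AA.2 ⟨_, ?_, rfl⟩, ?_⟩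
      · have := IsHomogeneous.mul (show a.IsHomogeneous 1 from ha) hg'
        rwa [add_comm] at this
      · have e1 : Ideal.Quotient.mk I (a * g') = Ideal.Quotient.mk I a * Ideal.Quotient.mk I g' :=
          map_mul _ _ _
        have e2 : Ideal.Quotient.mk I (a * b) = Ideal.Quotient.mk I a * Ideal.Quotient.mk I b :=
          map_mul _ _ _
        rw [e1, e2, ← hxb]
        simp only [ml, LinearMap.mulLeft_apply]
        ring
    | add a _ b _ ha hb =>
      rw [map_add]
      exact Submodule.add_mem _ ha hb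
  obtain ⟨x, hx, hxy⟩ := h3 g h1
  exact ⟨x, hx, hxy⟩

lemma surj_le (I : Ideal (MvPolynomial (Fin n) K)) (l : MvPolynomial (Fin n) K) {i j : ℕ}
    (hij : i ≤ j) (h : ∀ y ∈ AA I (i + 1), ∃ x ∈ AA I i, ml I l x = y) :
    ∀ y ∈ AA I (j + 1), ∃ x ∈ AA I j, ml I l x = y := by
  induction j, hij using Nat.le_induction with
  | base => exact h
  | succ j _ ih => exact surj_succ I l j ih

lemma ml_AA1 {I : Ideal (MvPolynomial (Fin n) K)} (hl : l.IsHomogeneous 1) (i : ℕ) :
    ∀ x ∈ AA I i, ml I l x ∈ AA I (i + 1) := by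
  intro x hx
  have := ml_AA (I := I) hl 1 i hx
  rwa [pow_one] at this

/-- The symmetry of the Hilbert function. -/
lemma CI.symm (h : CI f e) {i : ℕ} (hi : i ≤ sg e) :
    finrank K (AA (Id f) (sg e - i)) = finrank K (AA (Id f) i) := by
  rw [← gx_eq (sg e) (Id f) (sg e - i), ← gx_eq (sg e) (Id f) i, h.finrank_gx, h.finrank_gx,
    card_ex_neg]
  congr 3
  funext v
  apply propext
  omega

/-- Dimensions of the parts when `l` is surjective. -/
lemma dim_surj (h : CI f e) (hl : l.IsHomogeneous 1) (i : ℕ)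
    (hs : ∀ y ∈ AA (Id f) (i + 1), ∃ x ∈ AA (Id f) i, ml (Id f) l x = y) :
    finrank K (AA (Id f) (i + 1)) ≤ finrank K (AA (Id f) i) ∧
      (finrank K (AA (Id f) (i + 1)) = finrank K (AA (Id f) i) →
        ∀ x ∈ AA (Id f) i, ml (Id f) l x = 0 → x = 0) := by
  have := h.finite
  let φ : AA (Id f) i →ₗ[K] AA (Id f) (i + 1) := (ml (Id f) l).restrict (ml_AA1 hl i)
  have hφ : Function.Surjective φ := by
    intro y
    obtain ⟨x, hx, hxy⟩ := hs y y.2
    exact ⟨⟨x, hx⟩, Subtype.ext hxy⟩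
  refine ⟨LinearMap.finrank_le_finrank_of_surjective hφ, fun hd => ?_⟩
  have hi := (LinearMap.injective_iff_surjective_of_finrank_eq_finrank hd.symm).2 hφ
  intro x hx hx0
  have : (⟨x, hx⟩ : AA (Id f) i) = 0 := hi (by
    rw [map_zero]
    exact Subtype.ext hx0)
  exact congrArg Subtype.val this

/-- Dimensions of the parts when `l` is injective. -/
lemma dim_inj (h : CI f e) (hl : l.IsHomogeneous 1) (i : ℕ)
    (hs : ∀ x ∈ AA (Id f) i, ml (Id f) l x = 0 → x = 0) :
    finrank K (AA (Id f) i) ≤ finrank K (AA (Id f) (i + 1)) ∧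
      (finrank K (AA (Id f) i) = finrank K (AA (Id f) (i + 1)) →
        ∀ y ∈ AA (Id f) (i + 1), ∃ x ∈ AA (Id f) i, ml (Id f) l x = y) := by
  have := h.finite
  let φ : AA (Id f) i →ₗ[K] AA (Id f) (i + 1) := (ml (Id f) l).restrict (ml_AA1 hl i)
  have hφ : Function.Injective φ := by
    rw [← LinearMap.ker_eq_bot, LinearMap.ker_eq_bot']
    intro x hx
    exact Subtype.ext (hs x x.2 (congrArg Subtype.val hx))
  refine ⟨LinearMap.finrank_le_finrank_of_injective hφ, fun hd => ?_⟩
  have hi := (LinearMap.injective_iff_surjective_of_finrank_eq_finrank hd).1 hφ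
  intro y hy
  obtain ⟨x, hx⟩ := hi ⟨y, hy⟩
  exact ⟨x, x.2, congrArg Subtype.val hx⟩

/-- The strings of a weak Lefschetz element, for an even socle degree. -/
theorem wle_cross (h : CI f e) (hl : l.IsHomogeneous 1) {σ : ℕ} (hσ : sg e = 2 * σ)
    (S : Strings (gx (sg e) (Id f)) (ml (Id f) l)) :
    WLE (Id f) l ↔ ∀ s, ∃ i : Fin (S.len s + 1), S.wt ⟨s, i⟩ = 0 ∨ S.wt ⟨s, i⟩ = 1 := by
  have hfin := h.finite
  have hind := h.isInternal.submodule_iSupIndep
  have par : ∀ c : ℤ, (∃ x ∈ gx (sg e) (Id f) c, x ≠ 0) →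
      ∃ p : ℕ, ((sg e : ℕ) : ℤ) - 2 * (p : ℤ) = c := by
    rintro c ⟨x, hx, hx0⟩
    by_contra hc
    push Not at hc
    rw [gx_bot _ _ _ hc] at hx
    exact hx0 ((Submodule.mem_bot K).1 hx)
  have htop : ∀ s, ∃ p : ℕ, ((sg e : ℕ) : ℤ) - 2 * (p : ℤ) = S.top s := fun s =>
    par (S.top s) ⟨S.b ⟨s, 0⟩, by
      have := S.mem s 0
      simpa using this, S.b.ne_zero _⟩
  rw [wle_iff]
  constructor
  · intro hW s
    obtain ⟨p, hp⟩ := htop s
    have hfirst : S.b ⟨s, 0⟩ ∈ AA (Id f) p := by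
      have := S.mem s 0
      rw [← gx_eq (sg e) (Id f) p, hp]
      simpa using this
    have hlast : S.b ⟨s, Fin.last (S.len s)⟩ ∈ AA (Id f) (p + S.len s) := by
      have := S.mem s (Fin.last (S.len s))
      rw [← gx_eq (sg e) (Id f) (p + S.len s)]
      rwa [← hp, Fin.val_last, show ((sg e : ℕ) : ℤ) - 2 * (p : ℤ) - 2 * ((S.len s : ℕ) : ℤ) =
        ((sg e : ℕ) : ℤ) - 2 * ((p + S.len s : ℕ) : ℤ) by push_cast; ring] at this
    have hbot : ∀ q, sg e < q → AA (Id f) q = ⊥ := by
      intro q hq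
      rw [eq_bot_iff]
      intro y hy
      obtain ⟨g, hg, rfl⟩ := mem_AA.1 hy
      exact Ideal.Quotient.eq_zero_iff_mem.2 (h.top q hq g hg)
    have hple : p ≤ sg e := by
      by_contra hc
      rw [hbot p (by omega)] at hfirst
      exact S.b.ne_zero _ ((Submodule.mem_bot K).1 hfirst)
    have h1 : σ ≤ p + S.len s := by
      by_contra hc
      push Not at hc
      set q := p + S.len s with hq
      have hni : ¬ ∀ x ∈ AA (Id f) q, ml (Id f) l x = 0 → x = 0 := fun hh =>
        S.b.ne_zero _ (hh _ hlast (S.last s))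
      have hs := (hW q).resolve_left hni
      have hd := dim_surj h hl q hs
      have hlt : finrank K (AA (Id f) (q + 1)) < finrank K (AA (Id f) q) :=
        lt_of_le_of_ne hd.1 (fun hh => hni (hd.2 hh))
      have hmono : ∀ j, q + 1 ≤ j → finrank K (AA (Id f) j) ≤ finrank K (AA (Id f) (q + 1)) := by
        intro j hj
        induction j, hj using Nat.le_induction with
        | base => exact le_rfl
        | succ j hj ih =>
          exact le_trans (dim_surj h hl j (surj_le (Id f) l (by omega) hs)).1 ih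
      have := hmono (sg e - q) (by omega)
      rw [h.symm (by omega)] at this
      omega
    have h2 : p ≤ σ := by
      by_contra hc
      push Not at hc
      obtain ⟨p', rfl⟩ := Nat.exists_eq_succ_of_ne_zero (by omega : p ≠ 0)
      have hns : ¬ ∀ y ∈ AA (Id f) (p' + 1), ∃ x ∈ AA (Id f) p', ml (Id f) l x = y := by
        intro hh
        obtain ⟨x, _, hx⟩ := hh _ hfirst
        exact first_not_mem S s x hx
      have hi := (hW p').resolve_right hns
      have hd := dim_inj h hl p' hi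
      have hlt : finrank K (AA (Id f) p') < finrank K (AA (Id f) (p' + 1)) :=
        lt_of_le_of_ne hd.1 (fun hh => hns (hd.2 hh))
      have e1 := h.symm (i := p' + 1) (by omega)
      have e2 := h.symm (i := p') (by omega)
      have e3 : sg e - p' = (sg e - (p' + 1)) + 1 := by omega
      have hni : ¬ ∀ x ∈ AA (Id f) (sg e - (p' + 1)), ml (Id f) l x = 0 → x = 0 := by
        intro hh
        have := (dim_inj h hl _ hh).1
        rw [← e3, e1, e2] at this
        omega
      have hs := (hW (sg e - (p' + 1))).resolve_left hni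
      exact hns (surj_le (Id f) l (by omega) hs)
    refine ⟨⟨σ - p, by omega⟩, Or.inl ?_⟩
    unfold Strings.wt
    simp only
    omega
  · intro hX i
    have hX' : ∀ s, ∃ j : ℕ, j ≤ S.len s ∧ S.top s = 2 * (j : ℤ) := by
      intro s
      obtain ⟨j, hj⟩ := hX s
      obtain ⟨p, hp⟩ := htop s
      have := j.2
      unfold Strings.wt at hj
      simp only at hj
      exact ⟨j, by omega, by omega⟩
    by_cases hi : i < σ
    · left
      have := inj_of_last hind S (((sg e : ℕ) : ℤ) - 2 * (i : ℤ)) (fun s j hj => by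
        obtain ⟨j', hj', ht⟩ := hX' s
        omega)
      rwa [gx_eq] at this
    · right
      have := surj_of_first hind S (((sg e : ℕ) : ℤ) - 2 * (i : ℤ)) (fun s j hj => by
        obtain ⟨j', hj', ht⟩ := hX' s
        omega)
      rwa [gx_eq, show ((sg e : ℕ) : ℤ) - 2 * (i : ℤ) - 2 =
        ((sg e : ℕ) : ℤ) - 2 * ((i + 1 : ℕ) : ℤ) by push_cast; ring, gx_eq] at this

variable [CharZero K]

/-- The numerical form of the weak Lefschetz property, for an even socle degree. -/
theorem wle_card (h : CI f e) (hl : l.IsHomogeneous 1) {σ : ℕ} (hσ : sg e = 2 * σ) :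
    WLE (Id f) l ↔ mid e 1 = finrank K (LinearMap.ker (ml (Id f) l)) := by
  obtain ⟨S⟩ := exists_strings h hl
  have key : ∀ a : S.P → ℤ,
      Nat.card {g : Fin 1 → S.P // ∑ k, a (g k) = 0 ∨ ∑ k, a (g k) = 1} =
      Nat.card {p : S.P // a p = 0 ∨ a p = 1} := by
    intro a
    refine Nat.card_congr ((Equiv.funUnique (Fin 1) S.P).subtypeEquiv fun g => ?_)
    rw [Fin.sum_univ_one]
    rfl
  have h1 : finrank K (LinearMap.ker (ml (Id f) l)) =
      Nat.card {p : S.P // S.ct p = 0 ∨ S.ct p = 1} := by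
    rw [← key]
    exact ker_strings S 0
  rw [h1, mid_strings h S 1, key, card_eq_iff]
  exact wle_cross h hl hσ S

end wlp

section dbl

variable {K : Type u} [Field K] {n : ℕ}

/-- Two copies of the family `f` in disjoint variables. -/
noncomputable def dbl (f : Fin n → MvPolynomial (Fin n) K) :
    Fin (n + n) → MvPolynomial (Fin (n + n)) K :=
  Fin.append (fun i => rename (Fin.castAdd n) (f i)) (fun i => rename (Fin.natAdd n) (f i))

/-- The degrees. -/
def de (e : Fin n → ℕ) : Fin (n + n) → ℕ := Fin.append e e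

lemma sg_de (e : Fin n → ℕ) : sg (de e) = 2 * sg e := by
  unfold sg de
  rw [Fin.sum_univ_add]
  simp only [Fin.append_left, Fin.append_right]
  ring

lemma hp_de (e : Fin n → ℕ) : hp (de e) = hp e ^ 2 := by
  unfold hp de
  rw [Fin.prod_univ_add]
  simp only [Fin.append_left, Fin.append_right]
  ring

lemma mid_de (e : Fin n → ℕ) : mid (de e) 1 = mid e 2 := by
  unfold mid
  rw [hp_de, sg_de, pow_one, one_mul]

lemma card_de (e : Fin n → ℕ) : Nat.card (Bx (de e)) = Nat.card (Bx e) ^ 2 := by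
  rw [Nat.card_eq_fintype_card, Nat.card_eq_fintype_card, Fintype.card_pi, Fintype.card_pi,
    Fin.prod_univ_add]
  simp only [Fintype.card_fin, de, Fin.append_left, Fin.append_right]
  ring

lemma CI.finrank_eq {f : Fin n → MvPolynomial (Fin n) K} {e : Fin n → ℕ} (h : CI f e) :
    finrank K (MvPolynomial (Fin n) K ⧸ Id f) = Nat.card (Bx e) := by
  obtain ⟨S⟩ := exists_strings h (isHomogeneous_zero (Fin n) K 1)
  obtain ⟨E, _⟩ := exists_equiv S.wt (fun v : Bx e => ex v) (card_wt h S)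
  rw [finrank_eq_card_basis S.b, ← Nat.card_eq_fintype_card]
  exact Nat.card_congr E

/-- The map to the tensor product. -/
noncomputable def ph {A : Type u} [CommRing A] [Algebra K A] (π : MvPolynomial (Fin n) K →ₐ[K] A) :
    MvPolynomial (Fin (n + n)) K →ₐ[K] A ⊗[K] A :=
  aeval (Fin.append (fun i => π (X i) ⊗ₜ[K] (1 : A)) (fun i => (1 : A) ⊗ₜ[K] π (X i)))

lemma ph_left {A : Type u} [CommRing A] [Algebra K A] (π : MvPolynomial (Fin n) K →ₐ[K] A)
    (g : MvPolynomial (Fin n) K) : ph π (rename (Fin.castAdd n) g) = π g ⊗ₜ[K] (1 : A) := by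
  have h : (ph π).comp (rename (Fin.castAdd n)) =
      (Algebra.TensorProduct.includeLeft : A →ₐ[K] A ⊗[K] A).comp π := by
    apply MvPolynomial.algHom_ext
    intro i
    simp only [AlgHom.comp_apply, rename_X, ph, aeval_X, Fin.append_left,
      Algebra.TensorProduct.includeLeft_apply]
  exact DFunLike.congr_fun h g

lemma ph_right {A : Type u} [CommRing A] [Algebra K A] (π : MvPolynomial (Fin n) K →ₐ[K] A)
    (g : MvPolynomial (Fin n) K) : ph π (rename (Fin.natAdd n) g) = (1 : A) ⊗ₜ[K] π g := by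
  have h : (ph π).comp (rename (Fin.natAdd n)) =
      (Algebra.TensorProduct.includeRight : A →ₐ[K] A ⊗[K] A).comp π := by
    apply MvPolynomial.algHom_ext
    intro i
    simp only [AlgHom.comp_apply, rename_X, ph, aeval_X, Fin.append_right,
      Algebra.TensorProduct.includeRight_apply]
  exact DFunLike.congr_fun h g

lemma ker_dbl {A : Type u} [CommRing A] [Algebra K A] [Module.Finite K A]
    (π : MvPolynomial (Fin n) K →ₐ[K] A) (hπ : Function.Surjective π)
    (J : Ideal (MvPolynomial (Fin (n + n)) K)) (hfin : Module.Finite K (MvPolynomial (Fin (n + n)) K ⧸ J))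
    (hJ : ∀ g ∈ J, ph π g = 0)
    (hdim : finrank K (MvPolynomial (Fin (n + n)) K ⧸ J) = finrank K A ^ 2)
    (l1 l2 : MvPolynomial (Fin n) K) :
    finrank K (LinearMap.ker (ml J (rename (Fin.castAdd n) l1 + rename (Fin.natAdd n) l2))) =
      finrank K (LinearMap.ker (TensorProduct.map (LinearMap.mulLeft K (π l1)) LinearMap.id +
        TensorProduct.map LinearMap.id (LinearMap.mulLeft K (π l2)) : Module.End K (A ⊗[K] A))) := by
  set u : A ⊗[K] A := π l1 ⊗ₜ[K] (1 : A) + (1 : A) ⊗ₜ[K] π l2 with hu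
  have hN : (TensorProduct.map (LinearMap.mulLeft K (π l1)) LinearMap.id +
      TensorProduct.map LinearMap.id (LinearMap.mulLeft K (π l2)) : Module.End K (A ⊗[K] A)) =
      LinearMap.mulLeft K u := by
    refine TensorProduct.ext' fun x y => ?_
    simp only [LinearMap.add_apply, TensorProduct.map_tmul, LinearMap.mulLeft_apply,
      LinearMap.id_apply, hu, add_mul, Algebra.TensorProduct.tmul_mul_tmul, one_mul]
  let Φ : (MvPolynomial (Fin (n + n)) K ⧸ J) →ₐ[K] A ⊗[K] A := Ideal.Quotient.liftₐ J (ph π) hJ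
  have hΦ : ∀ g, Φ (Ideal.Quotient.mk J g) = ph π g := fun g => rfl
  have hsurj : Function.Surjective Φ.toLinearMap := by
    intro z
    induction z using TensorProduct.induction_on with
    | zero => exact ⟨0, map_zero _⟩
    | tmul a b =>
      obtain ⟨g, rfl⟩ := hπ a
      obtain ⟨g', rfl⟩ := hπ b
      refine ⟨Ideal.Quotient.mk J (rename (Fin.castAdd n) g * rename (Fin.natAdd n) g'), ?_⟩
      rw [AlgHom.toLinearMap_apply, hΦ, map_mul, ph_left, ph_right, Algebra.TensorProduct.tmul_mul_tmul, mul_one, one_mul]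
    | add x y hx hy =>
      obtain ⟨a, ha⟩ := hx
      obtain ⟨b, hb⟩ := hy
      exact ⟨a + b, by rw [map_add, ha, hb]⟩
  have hd : finrank K (MvPolynomial (Fin (n + n)) K ⧸ J) = finrank K (A ⊗[K] A) := by
    rw [hdim, Module.finrank_tensorProduct, pow_two]
  have hinj := (LinearMap.injective_iff_surjective_of_finrank_eq_finrank hd).2 hsurj
  let Ψ : (MvPolynomial (Fin (n + n)) K ⧸ J) ≃ₗ[K] A ⊗[K] A :=
    LinearEquiv.ofBijective Φ.toLinearMap ⟨hinj, hsurj⟩
  have hΨ : ∀ x, Ψ x = Φ x := fun x => rfl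
  have hcomm : ∀ x, Ψ (ml J (rename (Fin.castAdd n) l1 + rename (Fin.natAdd n) l2) x) =
      LinearMap.mulLeft K u (Ψ x) := by
    intro x
    rw [hΨ, hΨ]
    simp only [ml, LinearMap.mulLeft_apply]
    rw [map_mul, hΦ, map_add, ph_left, ph_right]
  rw [hN]
  have hker : (LinearMap.ker (ml J (rename (Fin.castAdd n) l1 + rename (Fin.natAdd n) l2))).map
      (Ψ : (MvPolynomial (Fin (n + n)) K ⧸ J) →ₗ[K] A ⊗[K] A) = LinearMap.ker (LinearMap.mulLeft K u) := by
    ext z
    rw [LinearMap.mem_ker]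
    constructor
    · rintro ⟨x, hx, rfl⟩
      have := hcomm x
      rw [LinearMap.mem_ker.1 hx, map_zero] at this
      exact this.symm
    · intro hz
      obtain ⟨x, rfl⟩ := Ψ.surjective z
      refine ⟨x, ?_, rfl⟩
      rw [← hcomm] at hz
      exact LinearMap.mem_ker.2 (Ψ.injective (by rw [hz, map_zero]))
  rw [← hker]
  exact (LinearEquiv.finrank_map_eq Ψ _).symm

lemma lin_split (L : MvPolynomial (Fin (n + n)) K) (hL : L.IsHomogeneous 1) :
    ∃ l1 l2 : MvPolynomial (Fin n) K, l1.IsHomogeneous 1 ∧ l2.IsHomogeneous 1 ∧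
      L = rename (Fin.castAdd n) l1 + rename (Fin.natAdd n) l2 := by
  have h : L ∈ homogeneousSubmodule (Fin (n + n)) K 1 := hL
  clear hL
  rw [homogeneousSubmodule_one_eq_span_X] at h
  induction h using Submodule.span_induction with
  | mem x hx =>
    obtain ⟨i, rfl⟩ := hx
    induction i using Fin.addCases with
    | left j =>
      exact ⟨X j, 0, isHomogeneous_X K j, isHomogeneous_zero _ _ _, by simp⟩
    | right j =>
      exact ⟨0, X j, isHomogeneous_zero _ _ _, isHomogeneous_X K j, by simp⟩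
  | zero => exact ⟨0, 0, isHomogeneous_zero _ _ _, isHomogeneous_zero _ _ _, by simp⟩
  | add x y _ _ hx hy =>
    obtain ⟨a, b, ha, hb, hab⟩ := hx
    obtain ⟨a', b', ha', hb', hab'⟩ := hy
    exact ⟨a + a', b + b', ha.add ha', hb.add hb', by rw [hab, hab', map_add, map_add]; ring⟩
  | smul c x _ hx =>
    obtain ⟨a, b, ha, hb, hab⟩ := hx
    refine ⟨c • a, c • b, ?_, ?_, ?_⟩
    · exact (homogeneousSubmodule (Fin n) K 1).smul_mem c ha
    · exact (homogeneousSubmodule (Fin n) K 1).smul_mem c hb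
    · rw [hab, map_smul, map_smul, smul_add]

/-- **The strong Lefschetz property and the weak Lefschetz property of the double.** -/
theorem slp_wlp [CharZero K] {f : Fin n → MvPolynomial (Fin n) K} {e : Fin n → ℕ} (h : CI f e)
    (h2 : CI (dbl f) (de e)) :
    (∃ l : MvPolynomial (Fin n) K, l.IsHomogeneous 1 ∧ SLE (Id f) l) ↔
      ∃ L : MvPolynomial (Fin (n + n)) K, L.IsHomogeneous 1 ∧ WLE (Id (dbl f)) L := by
  have hf1 := h.finite
  have hf2 := h2.finite
  have hJ : ∀ g ∈ Id (dbl f), ph (Ideal.Quotient.mkₐ K (Id f)) g = 0 := by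
    intro g hg
    have h3 : Id (dbl f) ≤ RingHom.ker (ph (Ideal.Quotient.mkₐ K (Id f))) := by
      rw [Ideal.span_le]
      rintro _ ⟨i, rfl⟩
      show ph (Ideal.Quotient.mkₐ K (Id f)) (dbl f i) = 0
      induction i using Fin.addCases with
      | left j =>
        rw [dbl, Fin.append_left, ph_left]
        have : Ideal.Quotient.mkₐ K (Id f) (f j) = 0 :=
          Ideal.Quotient.eq_zero_iff_mem.2 (Ideal.subset_span ⟨j, rfl⟩)
        rw [this, TensorProduct.zero_tmul]
      | right j =>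
        rw [dbl, Fin.append_right, ph_right]
        have : Ideal.Quotient.mkₐ K (Id f) (f j) = 0 :=
          Ideal.Quotient.eq_zero_iff_mem.2 (Ideal.subset_span ⟨j, rfl⟩)
        rw [this, TensorProduct.tmul_zero]
    exact h3 hg
  have hdim : finrank K (MvPolynomial (Fin (n + n)) K ⧸ Id (dbl f)) =
      finrank K (MvPolynomial (Fin n) K ⧸ Id f) ^ 2 := by
    rw [h2.finrank_eq, h.finrank_eq, card_de]
  have hkr : ∀ l1 l2 : MvPolynomial (Fin n) K,
      finrank K (LinearMap.ker (ml (Id (dbl f))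
        (rename (Fin.castAdd n) l1 + rename (Fin.natAdd n) l2))) = kr (Id f) l1 l2 := fun l1 l2 =>
    ker_dbl (Ideal.Quotient.mkₐ K (Id f)) Ideal.Quotient.mk_surjective (Id (dbl f)) hf2 hJ hdim l1 l2
  have hhom : ∀ l1 l2 : MvPolynomial (Fin n) K, l1.IsHomogeneous 1 → l2.IsHomogeneous 1 →
      (rename (Fin.castAdd n) l1 + rename (Fin.natAdd n) l2 :
        MvPolynomial (Fin (n + n)) K).IsHomogeneous 1 := fun l1 l2 h1 h2 =>
    (h1.rename_isHomogeneous).add (h2.rename_isHomogeneous)
  rw [slp_iff h]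
  constructor
  · rintro ⟨l1, l2, hl1, hl2, heq⟩
    refine ⟨_, hhom l1 l2 hl1 hl2, ?_⟩
    rw [wle_card h2 (hhom l1 l2 hl1 hl2) (sg_de e), mid_de, hkr]
    exact heq
  · rintro ⟨L, hL, hW⟩
    obtain ⟨l1, l2, hl1, hl2, rfl⟩ := lin_split L hL
    rw [wle_card h2 hL (sg_de e), mid_de, hkr] at hW
    exact ⟨l1, l2, hl1, hl2, hW⟩

end dbl

end Pool.Agent.Y163.SL
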