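import Pool.Agent.Y163.SL.Main

/-!
# The moment criterion, the square criterion and the index law
-/

set_option autoImplicit false

open MvPolynomial Module TensorProduct Filter Topology
open TH130CI (AA mem_AA)

namespace Pool.Agent.Y163.SL

open Pool.Agent.Y163.MW

universe u

section

variable {K : Type u} [Field K] {n : ℕ} {f : Fin n → MvPolynomial (Fin n) K} {e : Fin n → ℕ}
  {l : MvPolynomial (Fin n) K}

/-- The sum of the numbers `k * rank (l ^ k)`. -/
noncomputable def rs (f : Fin n → MvPolynomial (Fin n) K) (e : Fin n → ℕ)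
    (l : MvPolynomial (Fin n) K) : ℕ :=
  ∑ k ∈ Finset.range (sg e + 1), k * finrank K (LinearMap.range (ml (Id f) l ^ k))

lemma ml_pow_zero (h : CI f e) (hl : l.IsHomogeneous 1) {k : ℕ} (hk : sg e < k) :
    ml (Id f) l ^ k = 0 := by
  refine LinearMap.ext fun x => ?_
  obtain ⟨g, rfl⟩ := Ideal.Quotient.mk_surjective x
  rw [ml_pow, LinearMap.zero_apply, Ideal.Quotient.eq_zero_iff_mem, ← sum_homogeneousComponent g,
    Finset.mul_sum]
  refine Ideal.sum_mem _ fun i _ => ?_
  exact h.top (1 * k + i) (by omega) _ ((hl.pow k).mul (homogeneousComponent_isHomogeneous i g))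

lemma finsum_rank (h : CI f e) (hl : l.IsHomogeneous 1) :
    ∑ᶠ k : ℕ, 2 * (k : ℤ) * finrank K (LinearMap.range (ml (Id f) l ^ k)) = 2 * (rs f e l : ℤ) := by
  rw [finsum_eq_sum_of_support_subset (s := Finset.range (sg e + 1))]
  · unfold rs
    push_cast
    rw [Finset.mul_sum]
    exact Finset.sum_congr rfl fun k _ => by ring
  · intro k hk
    rw [Function.mem_support] at hk
    rw [Finset.coe_range, Set.mem_Iio]
    by_contra hcon
    apply hk
    rw [ml_pow_zero h hl (by omega), LinearMap.range_zero, finrank_bot]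
    simp

lemma finsum_weight (h : CI f e) :
    ∑ᶠ c : ℤ, c ^ 2 * (finrank K (gx (sg e) (Id f) c) : ℤ) = ∑ v : Bx e, ex v ^ 2 := by
  rw [← finsum_card (fun v : Bx e => ex v) (fun c => c ^ 2)]
  exact finsum_congr fun c => by rw [h.finrank_gx]

/-- `∏ e i * ∑ (e i ^ 2 - 1)`. -/
def wm (e : Fin n → ℕ) : ℕ := (∏ i, e i) * ∑ i, (e i ^ 2 - 1)

lemma wm_eq (h : CI f e) : (wm e : ℤ) = 3 * ∑ v : Bx e, ex v ^ 2 := by
  rw [(moments n e).2]
  unfold wm
  push_cast
  congr 1
  refine Finset.sum_congr rfl fun i _ => ?_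
  have h1 : 1 ≤ e i ^ 2 := Nat.one_le_pow _ _ (h.he i)
  push_cast [Nat.cast_sub h1]
  ring

/-- **The moment criterion.** -/
theorem moment_ci (h : CI f e) (hl : l.IsHomogeneous 1) :
    6 * rs f e l ≤ wm e ∧ (6 * rs f e l = wm e ↔ SLE (Id f) l) := by
  have := h.finite
  have h1 := moment h.isInternal (ml_gx hl (sg e))
  rw [finsum_rank h hl, finsum_weight h, ← sle_iff h hl] at h1
  have h2 := wm_eq h
  obtain ⟨h3, h4⟩ := h1
  refine ⟨by omega, ?_⟩
  rw [← h4]
  omega

/-- The strings of the multiplication by `l`. -/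
lemma exists_strings (h : CI f e) (hl : l.IsHomogeneous 1) :
    Nonempty (Strings (gx (sg e) (Id f)) (ml (Id f) l)) := by
  have := h.finite
  exact Pool.Agent.Y153.MW.stA K _ _ _ h.isInternal (ml_gx hl (sg e))

lemma sle_strings (h : CI f e) (hl : l.IsHomogeneous 1)
    (S : Strings (gx (sg e) (Id f)) (ml (Id f) l)) :
    SLE (Id f) l ↔ ∀ s, S.top s = S.len s := by
  rw [sle_iff h hl]
  exact Pool.Agent.Y614.MW.stF K _ _ _ h.isInternal S

lemma card_wt (h : CI f e) (S : Strings (gx (sg e) (Id f)) (ml (Id f) l)) (r : ℤ) :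
    Nat.card {p : S.P // S.wt p = r} = Nat.card {v : Bx e // ex v = r} := by
  rw [← h.finrank_gx]
  exact (finrank_gr h.isInternal.submodule_iSupIndep S.b S.wt S.mem' r).symm

lemma mid_strings (h : CI f e) (S : Strings (gx (sg e) (Id f)) (ml (Id f) l)) (m : ℕ) :
    mid e m = Nat.card {g : Fin m → S.P // ∑ k, S.wt (g k) = 0 ∨ ∑ k, S.wt (g k) = 1} := by
  rw [mid_eq]
  exact (card_transport S.wt (fun v : Bx e => ex v) (card_wt h S) m).symm

/-- The quotient by the ideal `I` with the multiplication by `l`. -/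
noncomputable def opI (I : Ideal (MvPolynomial (Fin n) K)) (l : MvPolynomial (Fin n) K) : Op K :=
  ⟨MvPolynomial (Fin n) K ⧸ I, ml I l⟩

variable [CharZero K]

lemma ad_strings (S : Strings (gx (sg e) (Id f)) (ml (Id f) l)) :
    (opI (Id f) l).Ad S.ct := by
  obtain ⟨x, y, hs⟩ := Pool.Agent.Y664.MW.t_B2 K _ _ _ S
  exact ⟨S.b, x, y, hs⟩

lemma ker_strings (S : Strings (gx (sg e) (Id f)) (ml (Id f) l)) (m : ℕ) :
    finrank K (LinearMap.ker ((opI (Id f) l).pow m).N) =
      Nat.card {g : Fin (m + 1) → S.P // ∑ k, S.ct (g k) = 0 ∨ ∑ k, S.ct (g k) = 1} :=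
  Op.ker_eq (Op.ad_pow (ad_strings S) m)

/-- **The square criterion.** -/
theorem square_ci (h : CI f e) (hl : l.IsHomogeneous 1) :
    mid e 2 ≤ finrank K (LinearMap.ker ((opI (Id f) l).pow 1).N) ∧
      (mid e 2 = finrank K (LinearMap.ker ((opI (Id f) l).pow 1).N) ↔ SLE (Id f) l) := by
  obtain ⟨S⟩ := exists_strings h hl
  have key : ∀ a : S.P → ℤ,
      Nat.card {g : Fin 2 → S.P // ∑ k, a (g k) = 0 ∨ ∑ k, a (g k) = 1} =
      Nat.card {x : S.P × S.P // a x.1 + a x.2 = 0 ∨ a x.1 + a x.2 = 1} := by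
    intro a
    refine Nat.card_congr ((finTwoArrowEquiv S.P).subtypeEquiv fun g => ?_)
    rw [Fin.sum_univ_two]
    rfl
  rw [ker_strings S 1, mid_strings h S 2, key, key, sle_strings h hl S]
  refine ⟨pairs_le S, fun h1 => S.pairs h1, fun h1 => ?_⟩
  have h2 : S.wt = S.ct := by
    funext p
    unfold Strings.ct Strings.wt
    rw [h1 p.1]
  rw [h2]

/-- **The index law.** -/
theorem index_ci (h : CI f e) (hl : l.IsHomogeneous 1) (hne : l ∉ Id f) :
    0 < rs f e l ∧
    Tendsto (fun m : ℕ => (finrank K (LinearMap.ker ((opI (Id f) l).pow m).N) : ℝ) /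
      (mid e (m + 1) : ℝ)) atTop (𝓝 (√((wm e : ℝ) / (6 * rs f e l : ℝ)))) ∧
    (√((wm e : ℝ) / (6 * rs f e l : ℝ)) = 1 ↔ SLE (Id f) l) := by
  have := h.finite
  obtain ⟨S⟩ := exists_strings h hl
  have hN : ml (Id f) l ≠ 0 := by
    intro h0
    apply hne
    have h1 := congrArg (fun T => T (Ideal.Quotient.mk (Id f) 1)) h0
    simp only [ml, LinearMap.mulLeft_apply, LinearMap.zero_apply] at h1
    rw [← map_mul, mul_one] at h1
    exact Ideal.Quotient.eq_zero_iff_mem.1 h1
  obtain ⟨s, hs⟩ := exists_len S hN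
  have hct : (∑ p, S.ct p ^ 2 : ℤ) = 2 * (rs f e l : ℤ) := by
    rw [← finsum_rank h hl]
    exact (Pool.Agent.Y461.MW.h K _ _ _ S).symm
  have hwt : (∑ p, S.wt p ^ 2 : ℤ) = ∑ v : Bx e, ex v ^ 2 := by
    rw [← finsum_weight h]
    exact (S.weightMoment h.isInternal.submodule_iSupIndep).symm
  have hpos : 0 < rs f e l := by
    have h1 : S.ct ⟨s, ⟨0, by omega⟩⟩ = S.len s := by
      unfold Strings.ct
      simp
    have h2 : 0 < S.ct ⟨s, ⟨0, by omega⟩⟩ ^ 2 := by
      rw [h1]
      have : (0 : ℤ) < S.len s := by exact_mod_cast hs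
      positivity
    have h3 := Finset.single_le_sum (f := fun p => S.ct p ^ 2)
      (fun p _ => sq_nonneg _) (Finset.mem_univ ⟨s, ⟨0, by omega⟩⟩)
    have h4 : (0 : ℤ) < 2 * (rs f e l : ℤ) := by
      rw [← hct]
      exact lt_of_lt_of_le h2 h3
    omega
  refine ⟨hpos, ?_, ?_⟩
  · have ha2 : ∃ p p', S.ct p = S.ct p' + 2 := by
      refine ⟨⟨s, ⟨0, by omega⟩⟩, ⟨s, ⟨1, by omega⟩⟩, ?_⟩
      unfold Strings.ct
      simp
    have hc2 : ∃ p p', S.wt p = S.wt p' + 2 := by
      refine ⟨⟨s, ⟨0, by omega⟩⟩, ⟨s, ⟨1, by omega⟩⟩, ?_⟩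
      unfold Strings.wt
      simp
    have ha : ∀ r : ℤ, Nat.card {p // S.ct p = r} = Nat.card {p // S.ct p = -r} := by
      intro r
      let E : S.P ≃ S.P := Equiv.sigmaCongrRight fun s => Fin.revPerm
      refine Nat.card_congr (E.subtypeEquiv ?_)
      rintro ⟨s, i⟩
      have hE : S.ct (E ⟨s, i⟩) = -S.ct ⟨s, i⟩ := by
        show (S.len s : ℤ) - 2 * ((Fin.rev i : Fin (S.len s + 1)) : ℕ) =
          -((S.len s : ℤ) - 2 * (i : ℕ))
        rw [Fin.val_rev]
        have := i.2
        omega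
      rw [hE]
      omega
    have hc : ∀ r : ℤ, Nat.card {p // S.wt p = r} = Nat.card {p // S.wt p = -r} := by
      intro r
      rw [card_wt h S, card_wt h S, card_ex_neg]
    have h1 := lim_ratio S.ct S.wt ha hc ha2 hc2
    have h2 : ((∑ p, S.wt p ^ 2 : ℤ) : ℝ) / ((∑ p, S.ct p ^ 2 : ℤ) : ℝ) =
        (wm e : ℝ) / (6 * rs f e l : ℝ) := by
      rw [hct, hwt]
      have h3 : (wm e : ℝ) = 3 * ((∑ v : Bx e, ex v ^ 2 : ℤ) : ℝ) := by
        have := wm_eq h
        exact_mod_cast this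
      rw [h3]
      push_cast
      have h4 : (rs f e l : ℝ) ≠ 0 := by
        have : (0 : ℝ) < rs f e l := by exact_mod_cast hpos
        exact this.ne'
      field_simp
      ring
    rw [← h2]
    refine h1.congr fun m => ?_
    rw [ker_strings S m, mid_strings h S (m + 1)]
  · have h4 : (0 : ℝ) < 6 * rs f e l := by
      have : (0 : ℝ) < rs f e l := by exact_mod_cast hpos
      positivity
    rw [← (moment_ci h hl).2, Real.sqrt_eq_one, div_eq_one_iff_eq h4.ne']
    constructor
    · intro h5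
      exact_mod_cast h5.symm
    · intro h5
      exact_mod_cast h5.symm

omit [CharZero K] in
/-- The middle coefficient of the square. -/
theorem mid_two (h : CI f e) : mid e 2 = ∑ i ∈ Finset.range (sg e + 1),
    finrank K (AA (Id f) i) ^ 2 := by
  unfold mid
  rw [show 2 * sg e / 2 = sg e by omega, pow_two, Polynomial.coeff_mul,
    Finset.Nat.sum_antidiagonal_eq_sum_range_succ_mk]
  refine Finset.sum_congr rfl fun i hi => ?_
  have hi' : i ≤ sg e := by
    have := Finset.mem_range.1 hi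
    omega
  have h1 : ∀ p, (hp e).coeff p = finrank K (AA (Id f) p) := by
    intro p
    rw [h.finrank_AA]
    have := coeff_prod (R := ℕ) e p
    exact_mod_cast this
  have h2 : finrank K (AA (Id f) (sg e - i)) = finrank K (AA (Id f) i) := by
    rw [← gx_eq (sg e) (Id f) (sg e - i), ← gx_eq (sg e) (Id f) i, h.finrank_gx, h.finrank_gx,
      card_ex_neg]
    congr 3
    funext v
    apply propext
    omega
  simp only [h1]
  rw [h2, pow_two]

end

/-- The dimension of the quotient of the algebra `A ⊗ A` by `a ⊗ 1 + 1 ⊗ a`. -/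
noncomputable def sqdim (K : Type u) [Field K] (A : Type u) [CommRing A] [Algebra K A] (a : A) : ℕ :=
  finrank K ((A ⊗[K] A) ⧸ Ideal.span {a ⊗ₜ[K] (1 : A) + (1 : A) ⊗ₜ[K] a})

lemma quot_gen {K : Type u} [Field K] {A : Type u} [CommRing A] [Algebra K A] [Module.Finite K A]
    (a : A) : sqdim K A a = finrank K (LinearMap.ker
      (TensorProduct.map (LinearMap.mulLeft K a) LinearMap.id +
        TensorProduct.map LinearMap.id (LinearMap.mulLeft K a) : Module.End K (A ⊗[K] A))) := by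
  unfold sqdim
  set u : A ⊗[K] A := a ⊗ₜ[K] (1 : A) + (1 : A) ⊗ₜ[K] a with hu
  have hN : (TensorProduct.map (LinearMap.mulLeft K a) LinearMap.id +
      TensorProduct.map LinearMap.id (LinearMap.mulLeft K a) : Module.End K (A ⊗[K] A)) =
      LinearMap.mulLeft K u := by
    refine TensorProduct.ext' fun x y => ?_
    simp only [LinearMap.add_apply, TensorProduct.map_tmul, LinearMap.mulLeft_apply,
      LinearMap.id_apply, hu, add_mul, Algebra.TensorProduct.tmul_mul_tmul, one_mul]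
  have e1 := LinearMap.finrank_range_add_finrank_ker (LinearMap.mulLeft K u)
  have e2 := LinearMap.finrank_range_add_finrank_ker
    (Ideal.Quotient.mkₐ K (Ideal.span {u})).toLinearMap
  have h1 : LinearMap.range (Ideal.Quotient.mkₐ K (Ideal.span {u})).toLinearMap = ⊤ :=
    LinearMap.range_eq_top.2 Ideal.Quotient.mk_surjective
  have h2 : LinearMap.ker (Ideal.Quotient.mkₐ K (Ideal.span {u})).toLinearMap =
      LinearMap.range (LinearMap.mulLeft K u) := by
    ext x
    rw [LinearMap.mem_ker, LinearMap.mem_range]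
    constructor
    · intro hx
      have hx' : x ∈ Ideal.span {u} := Ideal.Quotient.eq_zero_iff_mem.1 hx
      obtain ⟨y, rfl⟩ := Ideal.mem_span_singleton.1 hx'
      exact ⟨y, rfl⟩
    · rintro ⟨y, rfl⟩
      exact Ideal.Quotient.eq_zero_iff_mem.2 (Ideal.mem_span_singleton.2 ⟨y, rfl⟩)
  rw [h1, h2, finrank_top] at e2
  rw [hN]
  omega

/-- The quotient of `A ⊗ A` by the linear form `l ⊗ 1 + 1 ⊗ l`. -/
theorem quot_eq {K : Type u} [Field K] {n : ℕ} {f : Fin n → MvPolynomial (Fin n) K}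
    {e : Fin n → ℕ} (h : CI f e) (l : MvPolynomial (Fin n) K) :
    sqdim K (MvPolynomial (Fin n) K ⧸ Id f) (Ideal.Quotient.mk (Id f) l) =
      finrank K (LinearMap.ker ((opI (Id f) l).pow 1).N) := by
  have := h.finite
  exact quot_gen _

end Pool.Agent.Y163.SL
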