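import Pool.Agent.Y163.SL.Num
import Pool.Agent.Y163.MW.Asm
import Pool.Agent.Y954.MW.B1
import Pool.Agent.TH130.CI.Len2

/-!
# The grading of an Artinian complete intersection by the excess
-/

set_option autoImplicit false

open MvPolynomial Module TensorProduct
open H503R3.QCI (Homog Reg homog_span isSocleDegree_ci HS_ci HS cip)
open TH130CI (AA mem_AA finrank_AA finite_of_top iSup_AA_top)

namespace Pool.Agent.Y163.SL

open Pool.Agent.Y163.MW

universe u

section

variable {K : Type u} [Field K] {n : ℕ}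

/-- The degree parts of the quotient by a homogeneous ideal are independent. -/
lemma indep_AA {I : Ideal (MvPolynomial (Fin n) K)} (hI : Homog I) : iSupIndep (AA I) := by
  rw [iSupIndep_iff_finsetSum_eq_zero_imp_eq_zero]
  intro s v hv hsum j hj
  have hv' : ∀ i ∈ s, ∃ g : MvPolynomial (Fin n) K, g.IsHomogeneous i ∧ Ideal.Quotient.mk I g = v i :=
    fun i hi => mem_AA.1 (hv i hi)
  choose! g hg hgv using hv'
  have h1 : ∑ i ∈ s, g i ∈ I := by
    rw [← Ideal.Quotient.eq_zero_iff_mem, map_sum, Finset.sum_congr rfl hgv]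
    exact hsum
  have h2 := hI _ h1 j
  rw [map_sum, Finset.sum_eq_single j] at h2
  · rw [homogeneousComponent_of_mem (hg j hj), if_pos rfl] at h2
    rw [← hgv j hj]
    exact Ideal.Quotient.eq_zero_iff_mem.2 h2
  · intro i hi hij
    rw [homogeneousComponent_of_mem (hg i hi), if_neg (Ne.symm hij)]
  · intro h
    exact absurd hj h

/-- The grading by the excess `s - 2 * degree`. -/
noncomputable def gx (s : ℕ) (I : Ideal (MvPolynomial (Fin n) K)) (c : ℤ) :
    Submodule K (MvPolynomial (Fin n) K ⧸ I) :=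
  ⨆ (p : ℕ) (_ : (s : ℤ) - 2 * (p : ℤ) = c), AA I p

lemma AA_le_gx (s : ℕ) (I : Ideal (MvPolynomial (Fin n) K)) (p : ℕ) :
    AA I p ≤ gx s I ((s : ℤ) - 2 * (p : ℤ)) := le_iSup₂_of_le p rfl le_rfl

lemma gx_eq (s : ℕ) (I : Ideal (MvPolynomial (Fin n) K)) (p : ℕ) :
    gx s I ((s : ℤ) - 2 * (p : ℤ)) = AA I p := by
  apply le_antisymm
  · refine iSup₂_le fun q hq => ?_
    have : q = p := by omega
    rw [this]
  · exact AA_le_gx s I p

lemma gx_bot (s : ℕ) (I : Ideal (MvPolynomial (Fin n) K)) (c : ℤ)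
    (hc : ∀ p : ℕ, (s : ℤ) - 2 * (p : ℤ) ≠ c) : gx s I c = ⊥ := by
  rw [eq_bot_iff]
  exact iSup₂_le fun q hq => absurd hq (hc q)

lemma indep_gx (s : ℕ) {I : Ideal (MvPolynomial (Fin n) K)} (hI : Homog I) :
    iSupIndep (gx s I) :=
  iSupIndep_fib (indep_AA hI) (fun p : ℕ => (s : ℤ) - 2 * (p : ℤ))

variable {f : Fin n → MvPolynomial (Fin n) K} {e : Fin n → ℕ}

/-- The data of a complete intersection. -/
structure CI (f : Fin n → MvPolynomial (Fin n) K) (e : Fin n → ℕ) : Prop where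
  hf : ∀ i, (f i).IsHomogeneous (e i)
  he : ∀ i, 1 ≤ e i
  hreg : Reg f

/-- The ideal. -/
noncomputable abbrev Id (f : Fin n → MvPolynomial (Fin n) K) : Ideal (MvPolynomial (Fin n) K) :=
  Ideal.span (Set.range f)

lemma CI.homog (h : CI f e) : Homog (Id f) :=
  homog_span (by rintro _ ⟨j, rfl⟩; exact ⟨e j, h.hf j⟩)

lemma CI.top (h : CI f e) : ∀ p, sg e < p → ∀ g : MvPolynomial (Fin n) K, g.IsHomogeneous p →
    g ∈ Id f := (isSocleDegree_ci f e h.hf h.he h.hreg).2

lemma CI.finite (h : CI f e) : Module.Finite K (MvPolynomial (Fin n) K ⧸ Id f) :=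
  finite_of_top h.top

lemma CI.isInternal (h : CI f e) : DirectSum.IsInternal (gx (sg e) (Id f)) := by
  refine DirectSum.isInternal_submodule_of_iSupIndep_of_iSup_eq_top (indep_gx _ h.homog) ?_
  have h1 : (⨆ c, gx (sg e) (Id f) c) = ⨆ p, AA (Id f) p :=
    iSup_fib (fun p : ℕ => AA (Id f) p) (fun p : ℕ => ((sg e : ℕ) : ℤ) - 2 * (p : ℤ))
  rw [h1, eq_top_iff, ← iSup_AA_top h.top]
  exact iSup₂_le fun p _ => le_iSup (fun p => AA (Id f) p) p

lemma CI.finrank_AA (h : CI f e) (p : ℕ) :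
    finrank K (AA (Id f) p) = Nat.card {v : Bx e // td v = p} := by
  have h3 := congrArg (PowerSeries.coeff p) (HS_ci f e h.hf h.hreg)
  rw [HS, PowerSeries.coeff_mk, Polynomial.coeff_coe, cip, coeff_prod] at h3
  have h4 := TH130CI.finrank_AA (I := Id f) p
  have h5 : (finrank K (AA (Id f) p) : ℤ) = (Nat.card {v : Bx e // td v = p} : ℤ) := by
    have h6 : ((finrank K (homogeneousSubmodule (Fin n) K p) : ℕ) : ℤ) =
        finrank K (AA (Id f) p) + finrank K (H503R3.QCI.gr (Id f) p) := by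
      exact_mod_cast h4.symm
    linarith
  exact_mod_cast h5

lemma CI.finrank_gx (h : CI f e) (c : ℤ) :
    finrank K (gx (sg e) (Id f) c) = Nat.card {v : Bx e // ex v = c} := by
  by_cases hc : ∃ p : ℕ, ((sg e : ℕ) : ℤ) - 2 * (p : ℤ) = c
  · obtain ⟨p, rfl⟩ := hc
    rw [gx_eq, h.finrank_AA]
    refine Nat.card_congr (Equiv.subtypeEquivRight fun v => ?_)
    unfold ex
    omega
  · push Not at hc
    rw [gx_bot _ _ _ hc, finrank_bot]
    have : IsEmpty {v : Bx e // ex v = c} := ⟨fun v => hc (td v.1) v.2⟩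
    rw [Nat.card_of_isEmpty]

/-- Multiplication by the linear form `l`. -/
noncomputable def ml (I : Ideal (MvPolynomial (Fin n) K)) (l : MvPolynomial (Fin n) K) :
    Module.End K (MvPolynomial (Fin n) K ⧸ I) :=
  LinearMap.mulLeft K (Ideal.Quotient.mk I l)

lemma ml_pow (I : Ideal (MvPolynomial (Fin n) K)) (l g : MvPolynomial (Fin n) K) (k : ℕ) :
    (ml I l ^ k) (Ideal.Quotient.mk I g) = Ideal.Quotient.mk I (l ^ k * g) := by
  unfold ml
  rw [LinearMap.pow_mulLeft, LinearMap.mulLeft_apply, map_mul, map_pow]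

lemma ml_AA {I : Ideal (MvPolynomial (Fin n) K)} {l : MvPolynomial (Fin n) K}
    (hl : l.IsHomogeneous 1) (k p : ℕ) {x : MvPolynomial (Fin n) K ⧸ I} (hx : x ∈ AA I p) :
    (ml I l ^ k) x ∈ AA I (p + k) := by
  obtain ⟨g, hg, rfl⟩ := mem_AA.1 hx
  rw [ml_pow]
  refine mem_AA.2 ⟨_, ?_, rfl⟩
  have := (hl.pow k).mul hg
  rwa [show 1 * k + p = p + k by ring] at this

lemma ml_gx {I : Ideal (MvPolynomial (Fin n) K)} {l : MvPolynomial (Fin n) K}
    (hl : l.IsHomogeneous 1) (s : ℕ) (c : ℤ) : ∀ x ∈ gx s I c, ml I l x ∈ gx s I (c - 2) := by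
  intro x hx
  have h : gx s I c ≤ (gx s I (c - 2)).comap (ml I l) := by
    refine iSup₂_le fun p hp y hy => ?_
    have h1 := ml_AA (I := I) hl 1 p hy
    rw [pow_one] at h1
    have h2 := AA_le_gx s I (p + 1) h1
    rwa [show (s : ℤ) - 2 * ((p + 1 : ℕ) : ℤ) = c - 2 by push_cast; omega] at h2
  exact h hx

/-- The linear form `l` is a strong Lefschetz element: all the maps `l ^ k : A_i → A_(i + k)` are
injective or surjective. -/
def SLE (I : Ideal (MvPolynomial (Fin n) K)) (l : MvPolynomial (Fin n) K) : Prop :=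
  ∀ i k : ℕ, (∀ g ∈ homogeneousSubmodule (Fin n) K i, l ^ k * g ∈ I → g ∈ I) ∨
    ∀ h ∈ homogeneousSubmodule (Fin n) K (i + k), ∃ g ∈ homogeneousSubmodule (Fin n) K i,
      h - l ^ k * g ∈ I

lemma inj_iff {I : Ideal (MvPolynomial (Fin n) K)} {l : MvPolynomial (Fin n) K} (i k : ℕ) :
    (∀ g ∈ homogeneousSubmodule (Fin n) K i, l ^ k * g ∈ I → g ∈ I) ↔
      ∀ x ∈ AA I i, (ml I l ^ k) x = 0 → x = 0 := by
  constructor
  · intro h x hx h0
    obtain ⟨g, hg, rfl⟩ := mem_AA.1 hx
    rw [ml_pow, Ideal.Quotient.eq_zero_iff_mem] at h0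
    exact Ideal.Quotient.eq_zero_iff_mem.2 (h g hg h0)
  · intro h g hg h0
    have := h (Ideal.Quotient.mk I g) (mem_AA.2 ⟨g, hg, rfl⟩) (by
      rw [ml_pow]
      exact Ideal.Quotient.eq_zero_iff_mem.2 h0)
    exact Ideal.Quotient.eq_zero_iff_mem.1 this

lemma surj_iff {I : Ideal (MvPolynomial (Fin n) K)} {l : MvPolynomial (Fin n) K} (i k : ℕ) :
    (∀ h ∈ homogeneousSubmodule (Fin n) K (i + k), ∃ g ∈ homogeneousSubmodule (Fin n) K i,
      h - l ^ k * g ∈ I) ↔
      ∀ y ∈ AA I (i + k), ∃ x ∈ AA I i, (ml I l ^ k) x = y := by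
  constructor
  · intro h y hy
    obtain ⟨g, hg, rfl⟩ := mem_AA.1 hy
    obtain ⟨g', hg', h1⟩ := h g hg
    refine ⟨Ideal.Quotient.mk I g', mem_AA.2 ⟨g', hg', rfl⟩, ?_⟩
    rw [ml_pow, eq_comm, Ideal.Quotient.mk_eq_mk_iff_sub_mem]
    exact h1
  · intro h g hg
    obtain ⟨x, hx, hxy⟩ := h (Ideal.Quotient.mk I g) (mem_AA.2 ⟨g, hg, rfl⟩)
    obtain ⟨g', hg', rfl⟩ := mem_AA.1 hx
    refine ⟨g', hg', ?_⟩
    rw [ml_pow, eq_comm, Ideal.Quotient.mk_eq_mk_iff_sub_mem] at hxy
    exact hxy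

/-- `l` is a strong Lefschetz element if and only if the grading is centred for the multiplication
by `l`. -/
theorem sle_iff (h : CI f e) {l : MvPolynomial (Fin n) K} (hl : l.IsHomogeneous 1) :
    SLE (Id f) l ↔ Centred (gx (sg e) (Id f)) (ml (Id f) l) := by
  have := h.finite
  have hbot : ∀ j : ℕ, sg e < j → ∀ y ∈ AA (Id f) j, y = 0 := by
    intro j hj y hy
    obtain ⟨g, hg, rfl⟩ := mem_AA.1 hy
    exact Ideal.Quotient.eq_zero_iff_mem.2 (h.top j hj g hg)
  constructor
  · intro hS a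
    by_cases ha : ∃ p : ℕ, ((sg e : ℕ) : ℤ) - 2 * (p : ℤ) = a
    · obtain ⟨p, hp⟩ := ha
      have e1 : gx (sg e) (Id f) (a : ℤ) = AA (Id f) p := by rw [← hp, gx_eq]
      have e2 : gx (sg e) (Id f) (-(a : ℤ)) = AA (Id f) (p + a) := by
        rw [← gx_eq (sg e) (Id f) (p + a)]
        congr 1
        push_cast
        omega
      have hdim : finrank K (AA (Id f) p) = finrank K (AA (Id f) (p + a)) := by
        rw [← e1, ← e2, h.finrank_gx, h.finrank_gx, card_ex_neg]
      rw [e1, e2]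
      let φ : AA (Id f) p →ₗ[K] AA (Id f) (p + a) :=
        (ml (Id f) l ^ a).restrict (fun x hx => ml_AA hl a p hx)
      have hφ : ∀ x, (φ x : MvPolynomial (Fin n) K ⧸ Id f) = (ml (Id f) l ^ a) x := fun x => rfl
      have hfin : Module.Finite K (AA (Id f) p) := inferInstance
      have hbij : Function.Injective φ ∧ Function.Surjective φ := by
        rcases hS p a with h1 | h1
        · rw [inj_iff] at h1
          have hi : Function.Injective φ := by
            rw [← LinearMap.ker_eq_bot, LinearMap.ker_eq_bot']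
            intro x hx
            apply Subtype.ext
            exact h1 x x.2 (by rw [← hφ, hx]; rfl)
          exact ⟨hi, (LinearMap.injective_iff_surjective_of_finrank_eq_finrank hdim).1 hi⟩
        · rw [surj_iff] at h1
          have hs : Function.Surjective φ := by
            intro y
            obtain ⟨x, hx, hxy⟩ := h1 y y.2
            exact ⟨⟨x, hx⟩, Subtype.ext hxy⟩
          exact ⟨(LinearMap.injective_iff_surjective_of_finrank_eq_finrank hdim).2 hs, hs⟩
      refine ⟨fun x hx h0 => ?_, fun y hy => ?_⟩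
      · have : (⟨x, hx⟩ : AA (Id f) p) = 0 := hbij.1 (by
          rw [map_zero]
          exact Subtype.ext h0)
        exact congrArg Subtype.val this
      · obtain ⟨x, hx⟩ := hbij.2 ⟨y, hy⟩
        exact ⟨x, x.2, congrArg Subtype.val hx⟩
    · push Not at ha
      have e1 : gx (sg e) (Id f) (a : ℤ) = ⊥ := gx_bot _ _ _ ha
      refine ⟨fun x hx _ => ?_, fun y hy => ?_⟩
      · rw [e1] at hx
        exact (Submodule.mem_bot K).1 hx
      · have hy0 : y = 0 := by
          have hdim := h.finrank_gx (a : ℤ)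
          rw [card_ex_neg, ← h.finrank_gx, e1, finrank_bot] at hdim
          have := Submodule.finrank_eq_zero.1 hdim.symm
          rw [this] at hy
          exact (Submodule.mem_bot K).1 hy
        exact ⟨0, Submodule.zero_mem _, by rw [map_zero, hy0]⟩
  · intro hC i k
    rw [inj_iff, surj_iff]
    by_cases hik : 2 * i + k ≤ sg e
    · left
      intro x hx h0
      have ha : ((sg e : ℕ) : ℤ) - 2 * (i : ℤ) = ((sg e - 2 * i : ℕ) : ℤ) := by omega
      refine (hC (sg e - 2 * i)).1 x ?_ ?_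
      · rw [← ha, gx_eq]
        exact hx
      · rw [show sg e - 2 * i = (sg e - 2 * i - k) + k by omega, pow_add, Module.End.mul_apply, h0,
          map_zero]
    · right
      intro y hy
      by_cases hj : i + k ≤ sg e
      · have ha : ((sg e : ℕ) : ℤ) - 2 * ((i + k : ℕ) : ℤ) = -((2 * (i + k) - sg e : ℕ) : ℤ) := by
          push_cast
          omega
        obtain ⟨x, hx, hxy⟩ := (hC (2 * (i + k) - sg e)).2 y (by
          rw [← ha, gx_eq]
          exact hy)
        have ha' : ((2 * (i + k) - sg e : ℕ) : ℤ) = ((sg e : ℕ) : ℤ) - 2 * ((sg e - (i + k) : ℕ) : ℤ) := by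
          omega
        rw [ha', gx_eq] at hx
        refine ⟨(ml (Id f) l ^ (2 * (i + k) - sg e - k)) x, ?_, ?_⟩
        · have := ml_AA hl (2 * (i + k) - sg e - k) _ hx
          rwa [show sg e - (i + k) + (2 * (i + k) - sg e - k) = i by omega] at this
        · rw [← Module.End.mul_apply, ← pow_add,
            show k + (2 * (i + k) - sg e - k) = 2 * (i + k) - sg e by omega, hxy]
      · exact ⟨0, Submodule.zero_mem _, by rw [map_zero, hbot _ (by omega) y hy]⟩

end

end Pool.Agent.Y163.SL
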