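import Pool.Agent.Y163.SL.Gr

/-!
# Jordan types of linear forms on Artinian complete intersections
-/

set_option autoImplicit false

open MvPolynomial Module TensorProduct Filter Topology
open TH130CI (AA mem_AA)

namespace Pool.Agent.Y163.SL

open Pool.Agent.Y163.MW

universe u

lemma b1 : StB1.{u, u} := Pool.Agent.Y954.MW.stB1 Pool.Agent.Y141.MW.stL

section strings

variable {K : Type u} [Field K] {V : Type u} [AddCommGroup V] [Module K V]
  {gr : ℤ → Submodule K V} {N : Module.End K V}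

/-- The comparison of the pairs of basis vectors. -/
lemma pairs_le (S : Strings gr N) :
    Nat.card {x : S.P × S.P // S.wt x.1 + S.wt x.2 = 0 ∨ S.wt x.1 + S.wt x.2 = 1} ≤
      Nat.card {x : S.P × S.P // S.ct x.1 + S.ct x.2 = 0 ∨ S.ct x.1 + S.ct x.2 = 1} := by
  classical
  let f : {x : S.P × S.P // S.wt x.1 + S.wt x.2 = 0 ∨ S.wt x.1 + S.wt x.2 = 1} →
      {x : S.P × S.P // S.ct x.1 + S.ct x.2 = 0 ∨ S.ct x.1 + S.ct x.2 = 1} := fun x =>
    if hl : S.len x.1.1.1 ≤ S.len x.1.2.1 then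
      ⟨(x.1.1, ⟨x.1.2.1, ⟨(S.len x.1.1.1 + S.len x.1.2.1) / 2 - (x.1.1.2 : ℕ), by omega⟩⟩), by
        have := x.1.1.2.2
        unfold Strings.ct
        simp only
        omega⟩
    else
      ⟨(⟨x.1.1.1, ⟨(S.len x.1.1.1 + S.len x.1.2.1) / 2 - (x.1.2.2 : ℕ), by omega⟩⟩, x.1.2), by
        have := x.1.2.2.2
        unfold Strings.ct
        simp only
        omega⟩
  apply Nat.card_le_card_of_injective f
  rintro ⟨⟨⟨s, i⟩, ⟨t, j⟩⟩, hx⟩ ⟨⟨⟨s', i'⟩, ⟨t', j'⟩⟩, hx'⟩ hxy
  have hs : s = s' := by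
    have := congrArg (fun p => p.1.1.1) hxy
    simp only [f] at this
    split_ifs at this <;> exact this
  have ht : t = t' := by
    have := congrArg (fun p => p.1.2.1) hxy
    simp only [f] at this
    split_ifs at this <;> exact this
  subst hs
  subst ht
  unfold Strings.wt at hx hx'
  simp only at hx hx'
  by_cases hl : S.len s ≤ S.len t
  · have h1 : (i : ℕ) = i' := by
      have := congrArg (fun p => (p.1.1.2 : ℕ)) hxy
      simp only [f] at this
      rw [dif_pos hl, dif_pos hl] at this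
      exact this
    have h2 : i = i' := Fin.ext h1
    have h3 : j = j' := Fin.ext (by omega)
    subst h2 h3
    rfl
  · have h1 : (j : ℕ) = j' := by
      have := congrArg (fun p => (p.1.2.2 : ℕ)) hxy
      simp only [f] at this
      rw [dif_neg hl, dif_neg hl] at this
      exact this
    have h2 : j = j' := Fin.ext h1
    have h3 : i = i' := Fin.ext (by omega)
    subst h2 h3
    rfl

/-- If `N` is not zero, there is a string of positive length. -/
lemma exists_len (S : Strings gr N) (hN : N ≠ 0) : ∃ s, 1 ≤ S.len s := by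
  by_contra hcon
  push Not at hcon
  apply hN
  apply S.b.ext
  rintro ⟨s, i⟩
  have h0 : S.len s = 0 := by have := hcon s; omega
  have hi : i = Fin.last (S.len s) := by
    apply Fin.ext
    have := i.2
    rw [Fin.val_last]
    omega
  rw [hi, S.last, LinearMap.zero_apply]

end strings

/-- A vector space with an operator. -/
structure Op (K : Type u) [Field K] where
  V : Type u
  [addCommGroup : AddCommGroup V]
  [module : Module K V]
  N : Module.End K V

attribute [instance] Op.addCommGroup Op.module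

section op

variable {K : Type u} [Field K]

/-- The tensor power `V^⊗(m + 1)` with the operator `N ⊗ 1 ⊗ ... ⊗ 1 + ... + 1 ⊗ ... ⊗ 1 ⊗ N`. -/
noncomputable def Op.pow (A : Op K) : ℕ → Op K
  | 0 => A
  | m + 1 => ⟨A.V ⊗[K] (A.pow m).V,
      TensorProduct.map A.N LinearMap.id + TensorProduct.map LinearMap.id (A.pow m).N⟩

/-- There is a basis of weight vectors of weights `a i` for a representation of `sl(2)` with
lowering operator `N`. -/
def Op.Ad (A : Op K) {I : Type} (a : I → ℤ) : Prop :=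
  ∃ (b : Basis I K A.V) (e h : Module.End K A.V), IsSl2 A.N b a e h

lemma Op.Ad.reindex {A : Op K} {I J : Type} {a : I → ℤ} (H : A.Ad a) (E : I ≃ J) (a' : J → ℤ)
    (ha : ∀ j, a' j = a (E.symm j)) : A.Ad a' := by
  obtain ⟨b, e, h, hs⟩ := H
  refine ⟨b.reindex E, e, h, ⟨fun j => ?_, hs.eN, hs.hN, hs.he⟩⟩
  rw [Basis.reindex_apply, ha]
  exact hs.wt _

lemma Op.ad_pow {A : Op K} {I : Type} {a : I → ℤ} (H : A.Ad a) (m : ℕ) :
    (A.pow m).Ad (fun g : Fin (m + 1) → I => ∑ k, a (g k)) := by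
  induction m with
  | zero =>
    have H' : (A.pow 0).Ad a := H
    refine H'.reindex (Equiv.funUnique (Fin 1) I).symm _ (fun g => ?_)
    simp
  | succ m ih =>
    obtain ⟨b, e, h, hs⟩ := H
    obtain ⟨b', e', h', hs'⟩ := ih
    have H' : (A.pow (m + 1)).Ad
        (fun p : I × (Fin (m + 1) → I) => a p.1 + ∑ k, a (p.2 k)) :=
      ⟨_, _, _, Pool.Agent.Y210.MW.t_B3 K A.V (A.pow m).V A.N I b a e h (A.pow m).N _ b' _ e' h' hs
        hs'⟩
    refine H'.reindex (Fin.consEquiv (fun _ => I)) _ (fun g => ?_)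
    rw [Fin.sum_univ_succ]
    rfl

lemma Op.ker_eq [CharZero K] {A : Op K} {I : Type} [Fintype I] {a : I → ℤ} (H : A.Ad a) :
    finrank K (LinearMap.ker A.N) = Nat.card {i // a i = 0 ∨ a i = 1} := by
  obtain ⟨b, e, h, hs⟩ := H
  exact b1 K A.V A.N I b a e h hs

end op

section count

/-- The polynomial `∏ (1 + X + ... + X ^ (e i - 1))`, the Hilbert series of a complete intersection
of degrees `e i`. -/
noncomputable def hp {n : ℕ} (e : Fin n → ℕ) : Polynomial ℕ :=
  ∏ i, ∑ k ∈ Finset.range (e i), Polynomial.X ^ k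

/-- The middle coefficient of `hp e ^ m`. -/
noncomputable def mid {n : ℕ} (e : Fin n → ℕ) (m : ℕ) : ℕ := ((hp e) ^ m).coeff (m * sg e / 2)

lemma hp_eq {n : ℕ} (e : Fin n → ℕ) : hp e = ∑ v : Bx e, Polynomial.X ^ td v := by
  classical
  have h2 : ∀ i, ∑ k ∈ Finset.range (e i), (Polynomial.X : Polynomial ℕ) ^ k =
      ∑ t : Fin (e i), Polynomial.X ^ (t : ℕ) := fun i =>
    (Fin.sum_univ_eq_sum_range (fun k => (Polynomial.X : Polynomial ℕ) ^ k) (e i)).symm
  unfold hp
  rw [Finset.prod_congr rfl fun i _ => h2 i, Fintype.prod_sum]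
  refine Finset.sum_congr rfl fun v _ => ?_
  rw [Finset.prod_pow_eq_pow_sum]
  rfl

lemma mid_eq {n : ℕ} (e : Fin n → ℕ) (m : ℕ) : mid e m =
    Nat.card {g : Fin m → Bx e // ∑ k, ex (g k) = 0 ∨ ∑ k, ex (g k) = 1} := by
  classical
  unfold mid
  rw [hp_eq, Fintype.sum_pow, Polynomial.finsetSum_coeff]
  have h1 : ∀ g : Fin m → Bx e, (∏ k, (Polynomial.X : Polynomial ℕ) ^ td (g k)).coeff
      (m * sg e / 2) = if (∑ k, ex (g k) = 0 ∨ ∑ k, ex (g k) = 1) then 1 else 0 := by
    intro g
    rw [Finset.prod_pow_eq_pow_sum, Polynomial.coeff_X_pow]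
    have h2 : ∑ k, ex (g k) = ((m * sg e : ℕ) : ℤ) - 2 * ((∑ k, td (g k) : ℕ) : ℤ) := by
      unfold ex
      rw [Finset.sum_sub_distrib, Finset.sum_const, Finset.card_univ, Fintype.card_fin,
        ← Finset.mul_sum]
      push_cast
      ring
    rw [h2]
    congr 1
    apply propext
    generalize m * sg e = a
    generalize ∑ k, td (g k) = b
    omega
  rw [Finset.sum_congr rfl fun g _ => h1 g, Finset.sum_boole, Nat.card_eq_fintype_card,
    Fintype.card_subtype]
  rfl

/-- Two functions with the same numbers of values. -/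
lemma exists_equiv {I J : Type} [Finite I] [Finite J] (a : I → ℤ) (c : J → ℤ)
    (h : ∀ r, Nat.card {i // a i = r} = Nat.card {j // c j = r}) :
    ∃ E : I ≃ J, ∀ i, c (E i) = a i := by
  classical
  let F : ∀ r, {i // a i = r} ≃ {j // c j = r} := fun r => (Finite.card_eq.1 (h r)).some
  refine ⟨(Equiv.sigmaFiberEquiv a).symm.trans ((Equiv.sigmaCongrRight F).trans
    (Equiv.sigmaFiberEquiv c)), fun i => ?_⟩
  exact (F (a i) ⟨i, rfl⟩).2

lemma card_transport {I J : Type} [Finite I] [Finite J] (a : I → ℤ) (c : J → ℤ)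
    (h : ∀ r, Nat.card {i // a i = r} = Nat.card {j // c j = r}) (m : ℕ) :
    Nat.card {g : Fin m → I // ∑ k, a (g k) = 0 ∨ ∑ k, a (g k) = 1} =
      Nat.card {g : Fin m → J // ∑ k, c (g k) = 0 ∨ ∑ k, c (g k) = 1} := by
  obtain ⟨E, hE⟩ := exists_equiv a c h
  refine Nat.card_congr ((Equiv.arrowCongr (Equiv.refl _) E).subtypeEquiv fun g => ?_)
  have : ∑ k, c ((Equiv.arrowCongr (Equiv.refl (Fin m)) E) g k) = ∑ k, a (g k) :=
    Finset.sum_congr rfl fun k _ => hE _
  rw [this]

end count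

end Pool.Agent.Y163.SL
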