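import Mathlib

/-!
# Numbers: the Hilbert function of a complete intersection
-/

set_option autoImplicit false

open Finset

namespace Pool.Agent.Y163.SL

/-- The exponent vectors of the monomial complete intersection of degrees `e`. -/
abbrev Bx {n : ℕ} (e : Fin n → ℕ) : Type := (i : Fin n) → Fin (e i)

/-- The socle degree. -/
def sg {n : ℕ} (e : Fin n → ℕ) : ℕ := ∑ i, (e i - 1)

/-- The total degree. -/
def td {n : ℕ} {e : Fin n → ℕ} (v : Bx e) : ℕ := ∑ i, (v i : ℕ)

/-- The excess. -/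
def ex {n : ℕ} {e : Fin n → ℕ} (v : Bx e) : ℤ := (sg e : ℤ) - 2 * (td v : ℤ)

lemma td_rev {n : ℕ} {e : Fin n → ℕ} (v : Bx e) :
    td (fun i => Fin.rev (v i)) + td v = sg e := by
  unfold td sg
  rw [← Finset.sum_add_distrib]
  refine Finset.sum_congr rfl fun i _ => ?_
  rw [Fin.val_rev]
  have := (v i).2
  omega

/-- Reversal. -/
def rv {n : ℕ} (e : Fin n → ℕ) : Bx e ≃ Bx e where
  toFun v := fun i => Fin.rev (v i)
  invFun v := fun i => Fin.rev (v i)
  left_inv v := by funext i; simp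
  right_inv v := by funext i; simp

lemma ex_rv {n : ℕ} {e : Fin n → ℕ} (v : Bx e) : ex (rv e v) = - ex v := by
  have h := td_rev v
  unfold ex
  have h1 : td (rv e v) = td (fun i => Fin.rev (v i)) := rfl
  rw [h1]
  omega

lemma card_ex_neg {n : ℕ} {e : Fin n → ℕ} (c : ℤ) :
    Nat.card {v : Bx e // ex v = c} = Nat.card {v : Bx e // ex v = -c} := by
  refine Nat.card_congr ((rv e).subtypeEquiv fun v => ?_)
  rw [ex_rv]
  omega

lemma sum_lin (m : ℕ) : ∑ t : Fin m, (((m - 1 : ℕ) : ℤ) - 2 * (t : ℕ)) = 0 := by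
  have h : ∀ (m : ℕ) (s : ℤ), ∑ t ∈ Finset.range m, (s - 2 * (t : ℤ)) = m * s - m * (m - 1) := by
    intro m s
    induction m with
    | zero => simp
    | succ m ih =>
      rw [Finset.sum_range_succ, ih]
      push_cast
      ring
  rw [Fin.sum_univ_eq_sum_range (fun t => (((m - 1 : ℕ) : ℤ) - 2 * (t : ℤ))) m, h]
  rcases Nat.eq_zero_or_pos m with rfl | hm
  · simp
  · rw [Nat.cast_sub hm]
    push_cast
    ring

lemma sum_sq (m : ℕ) : 3 * ∑ t : Fin m, (((m - 1 : ℕ) : ℤ) - 2 * (t : ℕ)) ^ 2 =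
    m * ((m : ℤ) ^ 2 - 1) := by
  have h : ∀ (m : ℕ) (s : ℤ), 3 * ∑ t ∈ Finset.range m, (s - 2 * (t : ℤ)) ^ 2 =
      3 * m * s ^ 2 - 6 * s * m * (m - 1) + 2 * m * (m - 1) * (2 * m - 1) := by
    intro m s
    induction m with
    | zero => simp
    | succ m ih =>
      rw [Finset.sum_range_succ, mul_add, ih]
      push_cast
      ring
  rw [Fin.sum_univ_eq_sum_range (fun t => (((m - 1 : ℕ) : ℤ) - 2 * (t : ℤ)) ^ 2) m, h]
  rcases Nat.eq_zero_or_pos m with rfl | hm
  · simp
  · rw [Nat.cast_sub hm]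
    push_cast
    ring

/-- The mean and the variance of the excess. -/
lemma moments : ∀ (n : ℕ) (e : Fin n → ℕ), ∑ v : Bx e, ex v = 0 ∧
    3 * ∑ v : Bx e, ex v ^ 2 = (∏ i, (e i : ℤ)) * ∑ i, ((e i : ℤ) ^ 2 - 1) := by
  intro n
  induction n with
  | zero =>
    intro e
    have h : ∀ v : Bx e, ex v = 0 := by
      intro v
      unfold ex sg td
      simp
    constructor
    · exact Finset.sum_eq_zero fun v _ => h v
    · rw [Finset.sum_eq_zero fun v _ => by rw [h v]; ring]
      simp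
  | succ n ih =>
    intro e
    obtain ⟨ih1, ih2⟩ := ih (fun i => e i.succ)
    let E : Fin (e 0) × Bx (fun i => e i.succ) ≃ Bx e := Fin.consEquiv (fun i => Fin (e i))
    have hex : ∀ p : Fin (e 0) × Bx (fun i => e i.succ),
        ex (E p) = (((e 0 - 1 : ℕ) : ℤ) - 2 * (p.1 : ℕ)) + ex p.2 := by
      intro p
      have h1 : sg e = (e 0 - 1) + sg (fun i => e i.succ) := by
        unfold sg
        rw [Fin.sum_univ_succ]
      have h2 : td (E p) = (p.1 : ℕ) + td p.2 := by
        unfold td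
        rw [Fin.sum_univ_succ]
        rfl
      unfold ex
      rw [h1, h2]
      push_cast
      ring
    have hcard : (Fintype.card (Bx (fun i => e i.succ)) : ℤ) = ∏ i : Fin n, (e i.succ : ℤ) := by
      rw [Fintype.card_pi]
      simp
    constructor
    · rw [← E.sum_comp, Fintype.sum_prod_type]
      have : ∀ t : Fin (e 0), ∑ v : Bx (fun i => e i.succ), ex (E (t, v)) =
          (∏ i : Fin n, (e i.succ : ℤ)) * (((e 0 - 1 : ℕ) : ℤ) - 2 * (t : ℕ)) := by
        intro t
        have h1 : ∀ v : Bx (fun i => e i.succ), ex (E (t, v)) =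
            (((e 0 - 1 : ℕ) : ℤ) - 2 * (t : ℕ)) + ex v := fun v => hex (t, v)
        rw [Finset.sum_congr rfl fun v _ => h1 v, Finset.sum_add_distrib, ih1, add_zero,
          Finset.sum_const, Finset.card_univ, nsmul_eq_mul, hcard]
      rw [Finset.sum_congr rfl fun t _ => this t, ← Finset.mul_sum, sum_lin, mul_zero]
    · rw [← E.sum_comp, Fintype.sum_prod_type]
      have : ∀ t : Fin (e 0), ∑ v : Bx (fun i => e i.succ), ex (E (t, v)) ^ 2 =
          (∏ i : Fin n, (e i.succ : ℤ)) * (((e 0 - 1 : ℕ) : ℤ) - 2 * (t : ℕ)) ^ 2 +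
            ∑ v : Bx (fun i => e i.succ), ex v ^ 2 := by
        intro t
        have h1 : ∀ v : Bx (fun i => e i.succ), ex (E (t, v)) ^ 2 =
            (((e 0 - 1 : ℕ) : ℤ) - 2 * (t : ℕ)) ^ 2 +
              (2 * (((e 0 - 1 : ℕ) : ℤ) - 2 * (t : ℕ)) * ex v + ex v ^ 2) := by
          intro v
          rw [hex (t, v)]
          ring
        rw [Finset.sum_congr rfl fun v _ => h1 v, Finset.sum_add_distrib, Finset.sum_add_distrib,
          ← Finset.mul_sum, ih1, Finset.sum_const, Finset.card_univ, nsmul_eq_mul, hcard]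
        ring
      rw [Finset.sum_congr rfl fun t _ => this t, Finset.sum_add_distrib, ← Finset.mul_sum,
        Finset.sum_const, Finset.card_univ, Fintype.card_fin, nsmul_eq_mul, Fin.prod_univ_succ,
        Fin.sum_univ_succ]
      have h3 := sum_sq (e 0)
      linear_combination (∏ i : Fin n, (e i.succ : ℤ)) * h3 + (e 0 : ℤ) * ih2

/-- The coefficients of the product of the `1 + X + ... + X ^ (e i - 1)`. -/
lemma coeff_prod {R : Type*} [CommSemiring R] {n : ℕ} (e : Fin n → ℕ) (p : ℕ) :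
    (∏ i, ∑ k ∈ Finset.range (e i), (Polynomial.X : Polynomial R) ^ k).coeff p =
      (Nat.card {v : Bx e // td v = p} : R) := by
  classical
  have h1 : ∏ i, ∑ k ∈ Finset.range (e i), (Polynomial.X : Polynomial R) ^ k =
      ∑ v : Bx e, Polynomial.X ^ td v := by
    have h2 : ∀ i, ∑ k ∈ Finset.range (e i), (Polynomial.X : Polynomial R) ^ k =
        ∑ t : Fin (e i), Polynomial.X ^ (t : ℕ) := fun i =>
      (Fin.sum_univ_eq_sum_range (fun k => (Polynomial.X : Polynomial R) ^ k) (e i)).symm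
    rw [Finset.prod_congr rfl fun i _ => h2 i, Fintype.prod_sum]
    refine Finset.sum_congr rfl fun v _ => ?_
    rw [Finset.prod_pow_eq_pow_sum]
    rfl
  rw [h1, Polynomial.finsetSum_coeff]
  simp only [Polynomial.coeff_X_pow]
  rw [Finset.sum_boole, Nat.card_eq_fintype_card, Fintype.card_subtype]
  congr 2
  ext v
  simp [eq_comm]

end Pool.Agent.Y163.SL
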