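import Mathlib

/-!
# Pencils of operators
-/

set_option autoImplicit false

open Module

namespace Pool.Agent.Y163.SL

universe u v

/-- If `N1 ^ a` is injective on `W`, then `(N1 + t • N2) ^ a` is injective on `W` for all but
finitely many `t`. -/
lemma pencil {K : Type u} [Field K] {V : Type v} [AddCommGroup V] [Module K V] [Module.Finite K V]
    (W : Submodule K V) (N1 N2 : Module.End K V) (a : ℕ)
    (h : ∀ x ∈ W, (N1 ^ a) x = 0 → x = 0) :
    {t : K | ¬ ∀ x ∈ W, ((N1 + t • N2) ^ a) x = 0 → x = 0}.Finite := by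
  classical
  have hinj : LinearMap.ker ((N1 ^ a) ∘ₗ W.subtype) = ⊥ := by
    rw [LinearMap.ker_eq_bot']
    intro x hx
    exact Subtype.ext (h x x.2 hx)
  obtain ⟨π, hπ⟩ := LinearMap.exists_leftInverse_of_injective _ hinj
  let bV := Module.finBasis K V
  let bW := Module.finBasis K W
  let A := LinearMap.toMatrix bV bW π
  let E := LinearMap.toMatrix bW bV W.subtype
  let M1 := LinearMap.toMatrix bV bV N1
  let M2 := LinearMap.toMatrix bV bV N2
  let P : Polynomial K := (A.map Polynomial.C * ((M1.map Polynomial.C) +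
    (Polynomial.X : Polynomial K) • (M2.map Polynomial.C)) ^ a * E.map Polynomial.C).det
  have hd : ∀ t : K, (A * (M1 + t • M2) ^ a * E) =
      LinearMap.toMatrix bW bW (π ∘ₗ ((N1 + t • N2) ^ a) ∘ₗ W.subtype) := by
    intro t
    have h1 : M1 + t • M2 = LinearMap.toMatrix bV bV (N1 + t • N2) := by
      simp only [M1, M2, map_add, map_smul]
    rw [h1, LinearMap.toMatrix_pow, LinearMap.toMatrix_comp bW bV bW, LinearMap.toMatrix_comp bW bV bV,
      Matrix.mul_assoc]
  have hP : ∀ t : K, P.eval t = (A * (M1 + t • M2) ^ a * E).det := by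
    intro t
    have hA : ∀ {m n : ℕ} (B : Matrix (Fin m) (Fin n) K),
        (B.map Polynomial.C).map (Polynomial.evalRingHom t) = B := by
      intro m n B
      ext i j
      simp
    have e1 : P.eval t = Polynomial.evalRingHom t P := rfl
    rw [e1]
    simp only [P]
    rw [RingHom.map_det, RingHom.mapMatrix_apply, Matrix.map_mul, Matrix.map_mul, hA, hA]
    congr 3
    have e2 : ((M1.map Polynomial.C + (Polynomial.X : Polynomial K) • M2.map Polynomial.C) ^ a).map
        (Polynomial.evalRingHom t) = (Polynomial.evalRingHom t).mapMatrix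
          ((M1.map Polynomial.C + (Polynomial.X : Polynomial K) • M2.map Polynomial.C) ^ a) := rfl
    rw [e2, map_pow]
    congr 1
    ext i j
    simp only [RingHom.mapMatrix_apply, Matrix.map_apply, Matrix.add_apply, Matrix.smul_apply,
      smul_eq_mul, map_add, Polynomial.coe_evalRingHom, Polynomial.eval_mul, Polynomial.eval_C,
      Polynomial.eval_X]
  have hP0 : P ≠ 0 := by
    intro h0
    have h1 := hP 0
    rw [h0, hd 0, zero_smul, add_zero, hπ] at h1
    simp at h1
  refine (P.roots.toFinset.finite_toSet).subset fun t ht => ?_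
  rw [Finset.mem_coe, Multiset.mem_toFinset, Polynomial.mem_roots hP0, Polynomial.IsRoot.def]
  by_contra hne
  apply ht
  rw [hP, hd, LinearMap.det_toMatrix] at hne
  have hu := (LinearMap.isUnit_iff_isUnit_det _).2 (isUnit_iff_ne_zero.2 hne)
  have hb := ((Module.End.isUnit_iff _).1 hu).1
  intro x hx hx0
  have : (⟨x, hx⟩ : W) = 0 := hb (by
    rw [map_zero, LinearMap.comp_apply, LinearMap.comp_apply]
    have : ((N1 + t • N2) ^ a) (W.subtype ⟨x, hx⟩) = 0 := hx0
    rw [this, map_zero])
  exact congrArg Subtype.val this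

end Pool.Agent.Y163.SL
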