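import Pool.Agent.Y163.SL.Fin
import Pool.Agent.Y163.SL.Pencil

/-!
# Two linear forms
-/

set_option autoImplicit false

open MvPolynomial Module TensorProduct
open TH130CI (AA mem_AA)

namespace Pool.Agent.Y163.SL

open Pool.Agent.Y163.MW

universe u

section strings2

variable {K : Type u} [Field K] {V : Type u} [AddCommGroup V] [Module K V]
  {gr : ℤ → Submodule K V} {N N' : Module.End K V}

/-- The comparison map of the pairs of basis vectors. -/
noncomputable def cmp (S : Strings gr N) (S' : Strings gr N') :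
    {x : S.P × S'.P // S.wt x.1 + S'.wt x.2 = 0 ∨ S.wt x.1 + S'.wt x.2 = 1} →
    {x : S.P × S'.P // S.ct x.1 + S'.ct x.2 = 0 ∨ S.ct x.1 + S'.ct x.2 = 1} := fun x =>
  if hl : S.len x.1.1.1 ≤ S'.len x.1.2.1 then
    ⟨(x.1.1, ⟨x.1.2.1, ⟨(S.len x.1.1.1 + S'.len x.1.2.1) / 2 - (x.1.1.2 : ℕ), by omega⟩⟩), by
      have := x.1.1.2.2
      unfold Strings.ct
      simp only
      omega⟩
  else
    ⟨(⟨x.1.1.1, ⟨(S.len x.1.1.1 + S'.len x.1.2.1) / 2 - (x.1.2.2 : ℕ), by omega⟩⟩, x.1.2), by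
      have := x.1.2.2.2
      unfold Strings.ct
      simp only
      omega⟩

lemma cmp_fst (S : Strings gr N) (S' : Strings gr N')
    (x : {x : S.P × S'.P // S.wt x.1 + S'.wt x.2 = 0 ∨ S.wt x.1 + S'.wt x.2 = 1}) :
    (cmp S S' x).1.1.1 = x.1.1.1 := by
  unfold cmp
  split_ifs <;> rfl

lemma cmp_snd (S : Strings gr N) (S' : Strings gr N')
    (x : {x : S.P × S'.P // S.wt x.1 + S'.wt x.2 = 0 ∨ S.wt x.1 + S'.wt x.2 = 1}) :
    (cmp S S' x).1.2.1 = x.1.2.1 := by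
  unfold cmp
  split_ifs <;> rfl

lemma cmp_pos (S : Strings gr N) (S' : Strings gr N')
    (x : {x : S.P × S'.P // S.wt x.1 + S'.wt x.2 = 0 ∨ S.wt x.1 + S'.wt x.2 = 1})
    (hl : S.len x.1.1.1 ≤ S'.len x.1.2.1) : ((cmp S S' x).1.1.2 : ℕ) = x.1.1.2 := by
  unfold cmp
  rw [dif_pos hl]

lemma cmp_neg (S : Strings gr N) (S' : Strings gr N')
    (x : {x : S.P × S'.P // S.wt x.1 + S'.wt x.2 = 0 ∨ S.wt x.1 + S'.wt x.2 = 1})
    (hl : ¬ S.len x.1.1.1 ≤ S'.len x.1.2.1) : ((cmp S S' x).1.2.2 : ℕ) = x.1.2.2 := by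
  unfold cmp
  rw [dif_neg hl]

lemma cmp_inj (S : Strings gr N) (S' : Strings gr N') : Function.Injective (cmp S S') := by
  intro x y hxy
  have hs : x.1.1.1 = y.1.1.1 := by rw [← cmp_fst, hxy, cmp_fst]
  have ht : x.1.2.1 = y.1.2.1 := by rw [← cmp_snd, hxy, cmp_snd]
  have h1 : S.len x.1.1.1 ≤ S'.len x.1.2.1 → (x.1.1.2 : ℕ) = y.1.1.2 := by
    intro hl
    rw [← cmp_pos S S' x hl, ← cmp_pos S S' y (by rw [← hs, ← ht]; exact hl), hxy]
  have h2 : ¬ S.len x.1.1.1 ≤ S'.len x.1.2.1 → (x.1.2.2 : ℕ) = y.1.2.2 := by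
    intro hl
    rw [← cmp_neg S S' x hl, ← cmp_neg S S' y (by rw [← hs, ← ht]; exact hl), hxy]
  obtain ⟨⟨⟨s, i⟩, ⟨t, j⟩⟩, hx⟩ := x
  obtain ⟨⟨⟨s', i'⟩, ⟨t', j'⟩⟩, hx'⟩ := y
  simp only at hs ht
  subst hs
  subst ht
  unfold Strings.wt at hx hx'
  simp only at hx hx' h1 h2
  have h3 : (i : ℕ) = i' := by
    by_cases hl : S.len s ≤ S'.len t
    · exact h1 hl
    · have := h2 hl
      omega
  have h4 : i = i' := Fin.ext h3
  have h5 : j = j' := Fin.ext (by omega)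
  subst h4 h5
  rfl

lemma pairs_le2 (S : Strings gr N) (S' : Strings gr N') :
    Nat.card {x : S.P × S'.P // S.wt x.1 + S'.wt x.2 = 0 ∨ S.wt x.1 + S'.wt x.2 = 1} ≤
      Nat.card {x : S.P × S'.P // S.ct x.1 + S'.ct x.2 = 0 ∨ S.ct x.1 + S'.ct x.2 = 1} :=
  Nat.card_le_card_of_injective _ (cmp_inj S S')

lemma pairs_eq2 (S : Strings gr N) (S' : Strings gr N')
    (h : Nat.card {x : S.P × S'.P // S.wt x.1 + S'.wt x.2 = 0 ∨ S.wt x.1 + S'.wt x.2 = 1} =
      Nat.card {x : S.P × S'.P // S.ct x.1 + S'.ct x.2 = 0 ∨ S.ct x.1 + S'.ct x.2 = 1})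
    (s : S.ι) (t : S'.ι) :
    (S.len s ≤ S'.len t → S.top s + (S'.top t - 2 * S'.len t) ≤ 1) ∧
      (¬ S.len s ≤ S'.len t → S'.top t + (S.top s - 2 * S.len s) ≤ 1) := by
  have hb : Function.Surjective (cmp S S') :=
    ((cmp_inj S S').bijective_of_nat_card_le h.ge).2
  constructor
  · intro hl
    have hmem : S.ct ⟨s, ⟨0, by omega⟩⟩ +
        S'.ct ⟨t, ⟨(S.len s + S'.len t) / 2, by omega⟩⟩ = 0 ∨
        S.ct ⟨s, ⟨0, by omega⟩⟩ + S'.ct ⟨t, ⟨(S.len s + S'.len t) / 2, by omega⟩⟩ = 1 := by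
      unfold Strings.ct
      simp only
      omega
    obtain ⟨x, hfx⟩ := hb ⟨(⟨s, ⟨0, by omega⟩⟩, ⟨t, ⟨(S.len s + S'.len t) / 2, by omega⟩⟩), hmem⟩
    have hs : x.1.1.1 = s := by rw [← cmp_fst, hfx]
    have ht : x.1.2.1 = t := by rw [← cmp_snd, hfx]
    have h1 : (x.1.1.2 : ℕ) = 0 := by
      rw [← cmp_pos S S' x (by rw [hs, ht]; exact hl), hfx]
    obtain ⟨⟨⟨s', i'⟩, ⟨t', j'⟩⟩, hx⟩ := x
    simp only at hs ht h1
    subst hs
    subst ht
    unfold Strings.wt at hx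
    simp only at hx
    have := j'.2
    omega
  · intro hl
    have hmem : S.ct ⟨s, ⟨(S.len s + S'.len t) / 2, by omega⟩⟩ +
        S'.ct ⟨t, ⟨0, by omega⟩⟩ = 0 ∨
        S.ct ⟨s, ⟨(S.len s + S'.len t) / 2, by omega⟩⟩ + S'.ct ⟨t, ⟨0, by omega⟩⟩ = 1 := by
      unfold Strings.ct
      simp only
      omega
    obtain ⟨x, hfx⟩ := hb ⟨(⟨s, ⟨(S.len s + S'.len t) / 2, by omega⟩⟩, ⟨t, ⟨0, by omega⟩⟩), hmem⟩
    have hs : x.1.1.1 = s := by rw [← cmp_fst, hfx]
    have ht : x.1.2.1 = t := by rw [← cmp_snd, hfx]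
    have h1 : (x.1.2.2 : ℕ) = 0 := by
      rw [← cmp_neg S S' x (by rw [hs, ht]; exact hl), hfx]
    obtain ⟨⟨⟨s', i'⟩, ⟨t', j'⟩⟩, hx⟩ := x
    simp only at hs ht h1
    subst hs
    subst ht
    unfold Strings.wt at hx
    simp only at hx
    have := i'.2
    omega

lemma str_pow (S : Strings gr N) (s : S.ι) (i k : ℕ) (h : i + k < S.len s + 1) :
    (N ^ k) (S.b ⟨s, ⟨i, by omega⟩⟩) = S.b ⟨s, ⟨i + k, h⟩⟩ := by
  induction k with
  | zero => rfl
  | succ k ih =>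
    rw [pow_succ', Module.End.mul_apply, ih (by omega)]
    exact S.succ s ⟨i + k, by omega⟩

/-- The power `N ^ a` is injective on the part of degree `a` if the strings beginning above `a` go
down to `-a`. -/
lemma inj_of_bottom (hgr : iSupIndep gr) (S : Strings gr N) (a : ℕ)
    (h : ∀ s, (a : ℤ) ≤ S.top s → S.top s - 2 * S.len s ≤ -(a : ℤ)) :
    ∀ x ∈ gr a, (N ^ a) x = 0 → x = 0 := by
  classical
  intro x hx h0
  let T : Set S.P := {p | S.wt p = (a : ℤ)}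
  have hT : ∀ p : T, (p.1.2 : ℕ) + a < S.len p.1.1 + 1 := by
    rintro ⟨⟨s, i⟩, hp⟩
    have hp' : S.top s - 2 * ((i : ℕ) : ℤ) = (a : ℤ) := hp
    have := h s (by omega)
    simp only
    omega
  let g : T → S.P := fun p => ⟨p.1.1, ⟨(p.1.2 : ℕ) + a, hT p⟩⟩
  have hg : Function.Injective g := by
    rintro ⟨⟨s, i⟩, hp⟩ ⟨⟨s', i'⟩, hp'⟩ hgg
    have h1 : s = s' := congrArg (fun p => p.1) hgg
    subst h1
    have h2 : (i : ℕ) + a = i' + a := congrArg (fun p => (p.2 : ℕ)) hgg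
    have h3 : i = i' := Fin.ext (by omega)
    subst h3
    rfl
  have hli : LinearIndependent K (fun p : T => (N ^ a) (S.b p.1)) := by
    have h1 : (fun p : T => (N ^ a) (S.b p.1)) = S.b ∘ g := by
      funext p
      obtain ⟨⟨s, i⟩, hp⟩ := p
      exact str_pow S s i a (hT ⟨⟨s, i⟩, hp⟩)
    rw [h1]
    exact S.b.linearIndependent.comp _ hg
  have hx' : x ∈ Submodule.span K (Set.range (fun p : T => S.b p.1)) := by
    rw [gr_eq_span hgr S.b S.wt S.mem' (a : ℤ)] at hx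
    have h1 : S.b '' {p | S.wt p = (a : ℤ)} = Set.range (fun p : T => S.b p.1) := by
      ext y
      constructor
      · rintro ⟨p, hp, rfl⟩
        exact ⟨⟨p, hp⟩, rfl⟩
      · rintro ⟨p, rfl⟩
        exact ⟨p.1, p.2, rfl⟩
    rw [h1] at hx
    exact hx
  rw [← Finsupp.range_linearCombination] at hx'
  obtain ⟨c, rfl⟩ := hx'
  rw [← LinearMap.comp_apply, ← Finsupp.linearCombination_linear_comp] at h0
  have hc : c = 0 := by
    have := linearIndependent_iff.1 hli c h0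
    exact this
  rw [hc, map_zero]

end strings2

section

variable {K : Type u} [Field K] {n : ℕ} {f : Fin n → MvPolynomial (Fin n) K} {e : Fin n → ℕ}
  {l l1 l2 : MvPolynomial (Fin n) K}

/-- The dimension of the kernel of `l1 ⊗ 1 + 1 ⊗ l2`. -/
noncomputable def kr (I : Ideal (MvPolynomial (Fin n) K)) (l1 l2 : MvPolynomial (Fin n) K) : ℕ :=
  finrank K (LinearMap.ker (TensorProduct.map (ml I l1) LinearMap.id +
    TensorProduct.map LinearMap.id (ml I l2) :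
      Module.End K ((MvPolynomial (Fin n) K ⧸ I) ⊗[K] (MvPolynomial (Fin n) K ⧸ I))))

lemma ml_pow_gx {I : Ideal (MvPolynomial (Fin n) K)} {l : MvPolynomial (Fin n) K}
    (hl : l.IsHomogeneous 1) (s : ℕ) (k : ℕ) (c : ℤ) :
    ∀ x ∈ gx s I c, (ml I l ^ k) x ∈ gx s I (c - 2 * k) := by
  induction k with
  | zero =>
    intro x hx
    simpa using hx
  | succ k ih =>
    intro x hx
    have h1 := ml_gx hl s _ _ (ih x hx)
    rw [pow_succ', Module.End.mul_apply]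
    rwa [show c - 2 * (k : ℤ) - 2 = c - 2 * ((k + 1 : ℕ) : ℤ) by push_cast; ring] at h1

lemma mid_strings2 (h : CI f e) (S : Strings (gx (sg e) (Id f)) (ml (Id f) l1))
    (S' : Strings (gx (sg e) (Id f)) (ml (Id f) l2)) :
    mid e 2 = Nat.card {x : S.P × S'.P // S.wt x.1 + S'.wt x.2 = 0 ∨ S.wt x.1 + S'.wt x.2 = 1} := by
  obtain ⟨E, hE⟩ := exists_equiv S.wt (fun v : Bx e => ex v) (card_wt h S)
  obtain ⟨E', hE'⟩ := exists_equiv S'.wt (fun v : Bx e => ex v) (card_wt h S')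
  rw [mid_eq]
  refine Nat.card_congr (((finTwoArrowEquiv (Bx e)).trans
    (Equiv.prodCongr E.symm E'.symm)).subtypeEquiv fun g => ?_)
  rw [Fin.sum_univ_two]
  have h1 : S.wt (E.symm (g 0)) = ex (g 0) := by rw [← hE, E.apply_symm_apply]
  have h2 : S'.wt (E'.symm (g 1)) = ex (g 1) := by rw [← hE', E'.apply_symm_apply]
  have h3 : (((finTwoArrowEquiv (Bx e)).trans (Equiv.prodCongr E.symm E'.symm)) g).1 =
    E.symm (g 0) := rfl
  have h4 : (((finTwoArrowEquiv (Bx e)).trans (Equiv.prodCongr E.symm E'.symm)) g).2 =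
    E'.symm (g 1) := rfl
  rw [h3, h4, h1, h2]

lemma inj_or (h : CI f e) (S : Strings (gx (sg e) (Id f)) (ml (Id f) l1))
    (S' : Strings (gx (sg e) (Id f)) (ml (Id f) l2))
    (heq : Nat.card {x : S.P × S'.P // S.wt x.1 + S'.wt x.2 = 0 ∨ S.wt x.1 + S'.wt x.2 = 1} =
      Nat.card {x : S.P × S'.P // S.ct x.1 + S'.ct x.2 = 0 ∨ S.ct x.1 + S'.ct x.2 = 1})
    (a : ℕ) :
    (∀ x ∈ gx (sg e) (Id f) a, (ml (Id f) l1 ^ a) x = 0 → x = 0) ∨
      (∀ x ∈ gx (sg e) (Id f) a, (ml (Id f) l2 ^ a) x = 0 → x = 0) := by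
  rcases Nat.eq_zero_or_pos a with rfl | ha
  · left
    intro x _ hx
    simpa using hx
  · by_contra hcon
    rw [not_or] at hcon
    obtain ⟨h1, h2⟩ := hcon
    have h1' : ¬ ∀ s, (a : ℤ) ≤ S.top s → S.top s - 2 * S.len s ≤ -(a : ℤ) := fun hh =>
      h1 (inj_of_bottom h.isInternal.submodule_iSupIndep S a hh)
    have h2' : ¬ ∀ s, (a : ℤ) ≤ S'.top s → S'.top s - 2 * S'.len s ≤ -(a : ℤ) := fun hh =>
      h2 (inj_of_bottom h.isInternal.submodule_iSupIndep S' a hh)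
    push Not at h1' h2'
    obtain ⟨s, hs1, hs2⟩ := h1'
    obtain ⟨t, ht1, ht2⟩ := h2'
    have par : ∀ c : ℤ, (∃ x ∈ gx (sg e) (Id f) c, x ≠ 0) →
        ∃ p : ℕ, ((sg e : ℕ) : ℤ) - 2 * (p : ℤ) = c := by
      rintro c ⟨x, hx, hx0⟩
      by_contra hc
      push Not at hc
      rw [gx_bot _ _ _ hc] at hx
      exact hx0 ((Submodule.mem_bot K).1 hx)
    obtain ⟨p, hp⟩ := par (S.top s) ⟨S.b ⟨s, 0⟩, by
      have := S.mem s 0
      simpa using this, S.b.ne_zero _⟩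
    obtain ⟨q, hq⟩ := par (S'.top t) ⟨S'.b ⟨t, 0⟩, by
      have := S'.mem t 0
      simpa using this, S'.b.ne_zero _⟩
    obtain ⟨h3, h4⟩ := pairs_eq2 S S' heq s t
    by_cases hl : S.len s ≤ S'.len t
    · have := h3 hl
      omega
    · have := h4 hl
      omega

lemma ml_add (I : Ideal (MvPolynomial (Fin n) K)) (l1 l2 : MvPolynomial (Fin n) K) (t : K) :
    ml I (l1 + t • l2) = ml I l1 + t • ml I l2 := by
  have h1 : Ideal.Quotient.mk I (t • l2) = t • Ideal.Quotient.mk I l2 :=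
    map_smul (Ideal.Quotient.mkₐ K I) t l2
  refine LinearMap.ext fun x => ?_
  simp only [ml, LinearMap.mulLeft_apply, map_add, h1, LinearMap.add_apply, LinearMap.smul_apply,
    add_mul, smul_mul_assoc]

variable [CharZero K]

lemma kr_strings (S : Strings (gx (sg e) (Id f)) (ml (Id f) l1))
    (S' : Strings (gx (sg e) (Id f)) (ml (Id f) l2)) :
    kr (Id f) l1 l2 =
      Nat.card {x : S.P × S'.P // S.ct x.1 + S'.ct x.2 = 0 ∨ S.ct x.1 + S'.ct x.2 = 1} := by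
  obtain ⟨x, y, hs⟩ := Pool.Agent.Y664.MW.t_B2 K _ _ _ S
  obtain ⟨x', y', hs'⟩ := Pool.Agent.Y664.MW.t_B2 K _ _ _ S'
  exact b1 K _ _ _ _ _ _ _ (Pool.Agent.Y210.MW.t_B3 K _ _ _ _ S.b _ x y _ _ S'.b _ x' y' hs hs')

omit [CharZero K] in
lemma sle_of_inj (h : CI f e) (hl : l.IsHomogeneous 1)
    (hinj : ∀ a : ℕ, ∀ x ∈ gx (sg e) (Id f) a, (ml (Id f) l ^ a) x = 0 → x = 0) :
    SLE (Id f) l := by
  rw [sle_iff h hl]
  have := h.finite
  intro a
  refine ⟨hinj a, ?_⟩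
  have hdim : finrank K (gx (sg e) (Id f) (a : ℤ)) = finrank K (gx (sg e) (Id f) (-(a : ℤ))) := by
    rw [h.finrank_gx, h.finrank_gx, card_ex_neg]
  have hmem : ∀ x ∈ gx (sg e) (Id f) (a : ℤ), (ml (Id f) l ^ a) x ∈ gx (sg e) (Id f) (-(a : ℤ)) := by
    intro x hx
    have := ml_pow_gx hl (sg e) a _ x hx
    rwa [show (a : ℤ) - 2 * (a : ℤ) = -(a : ℤ) by ring] at this
  let φ : gx (sg e) (Id f) (a : ℤ) →ₗ[K] gx (sg e) (Id f) (-(a : ℤ)) :=
    (ml (Id f) l ^ a).restrict hmem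
  have hi : Function.Injective φ := by
    rw [← LinearMap.ker_eq_bot, LinearMap.ker_eq_bot']
    intro x hx
    apply Subtype.ext
    exact hinj a x x.2 (congrArg Subtype.val hx)
  have hs : Function.Surjective φ :=
    (LinearMap.injective_iff_surjective_of_finrank_eq_finrank hdim).1 hi
  intro y hy
  obtain ⟨x, hx⟩ := hs ⟨y, hy⟩
  exact ⟨x, x.2, congrArg Subtype.val hx⟩

lemma exists_sle (h : CI f e) (hl1 : l1.IsHomogeneous 1) (hl2 : l2.IsHomogeneous 1)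
    (hor : ∀ a : ℕ, (∀ x ∈ gx (sg e) (Id f) a, (ml (Id f) l1 ^ a) x = 0 → x = 0) ∨
      (∀ x ∈ gx (sg e) (Id f) a, (ml (Id f) l2 ^ a) x = 0 → x = 0)) :
    ∃ l : MvPolynomial (Fin n) K, l.IsHomogeneous 1 ∧ SLE (Id f) l := by
  have := h.finite
  let F : ℕ → Set K := fun a => {t : K | t ≠ 0 ∧
    ¬ ∀ x ∈ gx (sg e) (Id f) a, ((ml (Id f) l1 + t • ml (Id f) l2) ^ a) x = 0 → x = 0}
  have hF : ∀ a, (F a).Finite := by
    intro a
    rcases hor a with h1 | h1
    · exact (pencil _ _ (ml (Id f) l2) a h1).subset fun t ht => ht.2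
    · have h2 := (pencil _ _ (ml (Id f) l1) a h1).preimage (f := fun t : K => t⁻¹)
        inv_injective.injOn
      refine h2.subset fun t ht => ?_
      intro hcon
      apply ht.2
      intro x hx hx0
      apply hcon x hx
      have ht0 : t ≠ 0 := ht.1
      have h3 : ml (Id f) l1 + t • ml (Id f) l2 = t • (ml (Id f) l2 + t⁻¹ • ml (Id f) l1) := by
        rw [smul_add, smul_smul, mul_inv_cancel₀ ht0, one_smul, add_comm]
      rw [h3, smul_pow, LinearMap.smul_apply, smul_eq_zero] at hx0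
      rcases hx0 with h4 | h4
      · exact absurd h4 (pow_ne_zero a ht0)
      · exact h4
  have hU : ({0} ∪ ⋃ a ∈ Finset.range (sg e + 1), F a : Set K).Finite :=
    (Set.finite_singleton 0).union (Set.Finite.biUnion (Finset.finite_toSet _) fun a _ => hF a)
  obtain ⟨t, ht⟩ := hU.exists_notMem
  rw [Set.mem_union, not_or] at ht
  have ht0 : t ≠ 0 := fun h0 => ht.1 (by rw [h0]; exact Set.mem_singleton 0)
  have hl : (l1 + t • l2).IsHomogeneous 1 := by
    refine hl1.add ?_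
    rw [MvPolynomial.smul_eq_C_mul]
    have := (isHomogeneous_C (Fin n) t).mul hl2
    rwa [zero_add] at this
  refine ⟨l1 + t • l2, hl, sle_of_inj h hl fun a => ?_⟩
  by_cases ha : a ≤ sg e
  · by_contra hcon
    apply ht.2
    rw [Set.mem_iUnion₂]
    rw [ml_add] at hcon
    exact ⟨a, Finset.mem_range.2 (by omega), ht0, hcon⟩
  · intro x hx _
    rw [gx_bot _ _ _ (fun p => by omega)] at hx
    exact (Submodule.mem_bot K).1 hx

/-- **The inequality for two linear forms.** -/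
theorem le_kr (h : CI f e) (hl1 : l1.IsHomogeneous 1) (hl2 : l2.IsHomogeneous 1) :
    mid e 2 ≤ kr (Id f) l1 l2 := by
  obtain ⟨S⟩ := exists_strings h hl1
  obtain ⟨S'⟩ := exists_strings h hl2
  rw [kr_strings S S', mid_strings2 h S S']
  exact pairs_le2 S S'

/-- **The strong Lefschetz property and the tensor square.** -/
theorem slp_iff (h : CI f e) :
    (∃ l : MvPolynomial (Fin n) K, l.IsHomogeneous 1 ∧ SLE (Id f) l) ↔
      ∃ l1 l2 : MvPolynomial (Fin n) K, l1.IsHomogeneous 1 ∧ l2.IsHomogeneous 1 ∧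
        mid e 2 = kr (Id f) l1 l2 := by
  constructor
  · rintro ⟨l, hl, hs⟩
    exact ⟨l, l, hl, hl, (square_ci h hl).2.2 hs⟩
  · rintro ⟨l1, l2, hl1, hl2, heq⟩
    obtain ⟨S⟩ := exists_strings h hl1
    obtain ⟨S'⟩ := exists_strings h hl2
    rw [kr_strings S S', mid_strings2 h S S'] at heq
    exact exists_sle h hl1 hl2 (inj_or h S S' heq)

end

/-- The dimension of the quotient of the algebra `A ⊗ A` by `a ⊗ 1 + 1 ⊗ c`. -/
noncomputable def sqdim2 (K : Type u) [Field K] (A : Type u) [CommRing A] [Algebra K A] (a c : A) :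
    ℕ := finrank K ((A ⊗[K] A) ⧸ Ideal.span {a ⊗ₜ[K] (1 : A) + (1 : A) ⊗ₜ[K] c})

lemma quot_gen2 {K : Type u} [Field K] {A : Type u} [CommRing A] [Algebra K A] [Module.Finite K A]
    (a c : A) : sqdim2 K A a c = finrank K (LinearMap.ker
      (TensorProduct.map (LinearMap.mulLeft K a) LinearMap.id +
        TensorProduct.map LinearMap.id (LinearMap.mulLeft K c) : Module.End K (A ⊗[K] A))) := by
  unfold sqdim2
  set u : A ⊗[K] A := a ⊗ₜ[K] (1 : A) + (1 : A) ⊗ₜ[K] c with hu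
  have hN : (TensorProduct.map (LinearMap.mulLeft K a) LinearMap.id +
      TensorProduct.map LinearMap.id (LinearMap.mulLeft K c) : Module.End K (A ⊗[K] A)) =
      LinearMap.mulLeft K u := by
    refine TensorProduct.ext' fun x y => ?_
    simp only [LinearMap.add_apply, TensorProduct.map_tmul, LinearMap.mulLeft_apply,
      LinearMap.id_apply, hu, add_mul, Algebra.TensorProduct.tmul_mul_tmul, one_mul]
  have e1 := LinearMap.finrank_range_add_finrank_ker (LinearMap.mulLeft K u)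
  have e2 := LinearMap.finrank_range_add_finrank_ker
    (Ideal.Quotient.mkₐ K (Ideal.span {u})).toLinearMap
  have h1 : LinearMap.range (Ideal.Quotient.mkₐ K (Ideal.span {u})).toLinearMap = ⊤ :=
    LinearMap.range_eq_top.2 Ideal.Quotient.mk_surjective
  have h2 : LinearMap.ker (Ideal.Quotient.mkₐ K (Ideal.span {u})).toLinearMap =
      LinearMap.range (LinearMap.mulLeft K u) := by
    ext x
    rw [LinearMap.mem_ker, LinearMap.mem_range]
    constructor
    · intro hx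
      have hx' : x ∈ Ideal.span {u} := Ideal.Quotient.eq_zero_iff_mem.1 hx
      obtain ⟨y, rfl⟩ := Ideal.mem_span_singleton.1 hx'
      exact ⟨y, rfl⟩
    · rintro ⟨y, rfl⟩
      exact Ideal.Quotient.eq_zero_iff_mem.2 (Ideal.mem_span_singleton.2 ⟨y, rfl⟩)
  rw [h1, h2, finrank_top] at e2
  rw [hN]
  omega

/-- The quotient of `A ⊗ A` by the linear form `l1 ⊗ 1 + 1 ⊗ l2`. -/
theorem quot_eq2 {K : Type u} [Field K] {n : ℕ} {f : Fin n → MvPolynomial (Fin n) K}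
    {e : Fin n → ℕ} (h : CI f e) (l1 l2 : MvPolynomial (Fin n) K) :
    sqdim2 K (MvPolynomial (Fin n) K ⧸ Id f) (Ideal.Quotient.mk (Id f) l1)
      (Ideal.Quotient.mk (Id f) l2) = kr (Id f) l1 l2 := by
  have := h.finite
  exact quot_gen2 _ _

end Pool.Agent.Y163.SL
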